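import Pool.Agent.K4H89.J.Hens
import Pool.Agent.K4H89.NV.Defs
import Pool.Agent.W882.Nip3.Defs

/-!
# Definability in finite extensions
-/

set_option autoImplicit false

namespace Pool.Agent.K4H89.J

open FirstOrder FirstOrder.Language Set
open Pool.Agent.W882.Nip3 (NIPField)

section

variable {K : Type} [Field K] [FirstOrder.Ring.CompatibleRing K]

/-- functions which are definable with parameters -/
def DF {α : Type} (f : (α → K) → K) : Prop :=
  (Set.univ : Set K).DefinableFun FirstOrder.Language.ring f

/-- sets which are definable with parameters -/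
def DS {α : Type} (s : Set (α → K)) : Prop := (Set.univ : Set K).Definable FirstOrder.Language.ring s

theorem DF.comp {α β : Type} [Finite α] {f : (α → K) → K} {g : (β → K) → α → K} (hf : DF f)
    (hg : ∀ i, DF fun v => g v i) : DF fun v => f (g v) :=
  DefinableFun.comp (g := g) hg hf

theorem DF.proj {α : Type} (i : α) : DF (fun v : α → K => v i) := DefinableFun.proj _

theorem DF.const {α : Type} (a : K) : DF (fun _ : α → K => a) :=
  FirstOrder.Language.definableFun_const _ α (Set.mem_univ a)

theorem DF.add {α : Type} {f g : (α → K) → K} (hf : DF f) (hg : DF g) :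
    DF (fun v => f v + g v) := by
  have h1 : DF (fun w : Fin 2 → K => w 0 + w 1) := by
    have := (Term.definableFun_realize (M := K)
      ((Term.var 0 + Term.var 1 : FirstOrder.Language.ring.Term (Fin 2)))).of_empty
      (A := (Set.univ : Set K))
    have h2 : (fun w : Fin 2 → K => w 0 + w 1) =
        (Term.var 0 + Term.var 1 : FirstOrder.Language.ring.Term (Fin 2)).realize := by
      funext w
      simp
    rw [DF, h2]
    exact this
  exact DF.comp (g := fun v => ![f v, g v]) h1 (by
    intro i
    fin_cases i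
    · exact hf
    · exact hg)

theorem DF.mul {α : Type} {f g : (α → K) → K} (hf : DF f) (hg : DF g) :
    DF (fun v => f v * g v) := by
  have h1 : DF (fun w : Fin 2 → K => w 0 * w 1) := by
    have := (Term.definableFun_realize (M := K)
      ((Term.var 0 * Term.var 1 : FirstOrder.Language.ring.Term (Fin 2)))).of_empty
      (A := (Set.univ : Set K))
    have h2 : (fun w : Fin 2 → K => w 0 * w 1) =
        (Term.var 0 * Term.var 1 : FirstOrder.Language.ring.Term (Fin 2)).realize := by
      funext w
      simp
    rw [DF, h2]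
    exact this
  exact DF.comp (g := fun v => ![f v, g v]) h1 (by
    intro i
    fin_cases i
    · exact hf
    · exact hg)

theorem DF.sum {α : Type} {ι : Type*} (s : Finset ι) {f : ι → (α → K) → K}
    (hf : ∀ i ∈ s, DF (f i)) : DF (fun v => ∑ i ∈ s, f i v) := by
  classical
  induction s using Finset.induction_on with
  | empty => simpa using DF.const (α := α) (0 : K)
  | insert i s hi ih =>
    simp only [Finset.sum_insert hi]
    exact (hf i (Finset.mem_insert_self i s)).add
      (ih fun j hj => hf j (Finset.mem_insert_of_mem hj))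

theorem DS.preimage {α β : Type} [Finite β] {F : (α → K) → (β → K)} (hF : ∀ i, DF fun v => F v i)
    {S : Set (β → K)} (hS : DS S) : DS (F ⁻¹' S) :=
  Definable.preimage_map (F := F) hF hS

theorem DS.eq {α : Type} {f g : (α → K) → K} (hf : DF f) (hg : DF g) :
    DS {v | f v = g v} := DefinableFun.ofPred_eq hf hg

theorem DS.and {α : Type} {P Q : (α → K) → Prop} (hP : DS {v | P v}) (hQ : DS {v | Q v}) :
    DS {v | P v ∧ Q v} := Definable.inter hP hQ

theorem DS.not {α : Type} {P : (α → K) → Prop} (hP : DS {v | P v}) : DS {v | ¬ P v} :=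
  Definable.compl hP

theorem DS.all {α : Type} {ι : Type*} [Finite ι] {P : ι → (α → K) → Prop}
    (hP : ∀ i, DS {v | P i v}) : DS {v | ∀ i, P i v} := by
  have h1 := definable_iInter_of_finite (L := FirstOrder.Language.ring) (f := fun i => {v | P i v}) hP
  have h2 : {v | ∀ i, P i v} = ⋂ i, {v | P i v} := by
    ext v
    simp
  rw [DS, h2]
  exact h1

theorem DS.ex {α : Type} {n : ℕ} {P : (α → K) → (Fin n → K) → Prop}
    (hP : DS {w : α ⊕ Fin n → K | P (fun i => w (Sum.inl i)) (fun j => w (Sum.inr j))}) :
    DS {v | ∃ u, P v u} := by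
  exact Definable.exists_of_finite hP

end

section

variable {K L : Type} [Field K] [FirstOrder.Ring.CompatibleRing K] [Field L] [Algebra K L]
  {n : ℕ} (b : Module.Basis (Fin n) K L)

/-- functions with values in `L` whose coordinates are definable -/
def DL {α : Type} (f : (α → K) → L) : Prop := ∀ i, DF fun v => b.repr (f v) i

variable {b}

theorem DL.const {α : Type} (a : L) : DL b (fun _ : α → K => a) := fun _ => DF.const _

theorem DL.add {α : Type} {f g : (α → K) → L} (hf : DL b f) (hg : DL b g) :
    DL b (fun v => f v + g v) := fun i => by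
  simp only [map_add, Finsupp.coe_add, Pi.add_apply]
  exact (hf i).add (hg i)

theorem DL.mul {α : Type} {f g : (α → K) → L} (hf : DL b f) (hg : DL b g) :
    DL b (fun v => f v * g v) := fun i => by
  have h1 : ∀ v, b.repr (f v * g v) i =
      ∑ j, ∑ k, b.repr (f v) j * (b.repr (g v) k * b.repr (b j * b k) i) := by
    intro v
    conv_lhs => rw [← b.sum_repr (f v), ← b.sum_repr (g v), Finset.sum_mul_sum]
    simp only [map_sum, Finsupp.coe_finsetSum, Finset.sum_apply, smul_mul_smul_comm, map_smul,
      Finsupp.coe_smul, Pi.smul_apply, smul_eq_mul, mul_assoc]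
  simp only [h1]
  exact DF.sum _ fun j _ => DF.sum _ fun k _ => (hf j).mul ((hg k).mul (DF.const _))

theorem DL.pow {α : Type} {f : (α → K) → L} (hf : DL b f) (m : ℕ) : DL b (fun v => f v ^ m) := by
  induction m with
  | zero => simpa using DL.const (1 : L)
  | succ m ih =>
    simp only [pow_succ]
    exact ih.mul hf

theorem DL.sub {α : Type} {f g : (α → K) → L} (hf : DL b f) (hg : DL b g) :
    DL b (fun v => f v - g v) := by
  have h1 : (fun v => f v - g v) = fun v => f v + (-1 : L) * g v := by
    funext v
    ring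
  rw [h1]
  exact hf.add ((DL.const _).mul hg)

theorem DL.sum {α : Type} {ι : Type*} (s : Finset ι) {f : ι → (α → K) → L}
    (hf : ∀ i ∈ s, DL b (f i)) : DL b (fun v => ∑ i ∈ s, f i v) := by
  classical
  induction s using Finset.induction_on with
  | empty => simpa using DL.const (α := α) (b := b) (0 : L)
  | insert i s hi ih =>
    simp only [Finset.sum_insert hi]
    exact (hf i (Finset.mem_insert_self i s)).add
      (ih fun j hj => hf j (Finset.mem_insert_of_mem hj))

theorem DL.algebraMap {α : Type} {f : (α → K) → K} (hf : DF f) :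
    DL b (fun v => algebraMap K L (f v)) := fun i => by
  simp only [Algebra.algebraMap_eq_smul_one, map_smul, Finsupp.coe_smul, Pi.smul_apply, smul_eq_mul]
  exact hf.mul (DF.const _)

/-- the element with given coordinates -/
noncomputable def el (b : Module.Basis (Fin n) K L) (u : Fin n → K) : L := b.equivFun.symm u

theorem DL.el {α : Type} {f : (α → K) → Fin n → K} (hf : ∀ i, DF fun v => f v i) :
    DL b (fun v => el b (f v)) := fun i => by
  have h1 : ∀ v, b.repr (J.el b (f v)) i = f v i := by
    intro v
    rw [J.el, ← b.equivFun_apply, LinearEquiv.apply_symm_apply]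
  simp only [h1]
  exact hf i

theorem DL.eq {α : Type} {f g : (α → K) → L} (hf : DL b f) (hg : DL b g) :
    DS {v | f v = g v} := by
  have h1 : {v | f v = g v} = {v | ∀ i, b.repr (f v) i = b.repr (g v) i} := by
    ext v
    simp only [Set.mem_ofPred_eq]
    constructor
    · intro h i
      rw [h]
    · intro h
      apply b.repr.injective
      ext i
      exact h i
  rw [h1]
  exact DS.all fun i => DS.eq (hf i) (hg i)

theorem DL.ex (b : Module.Basis (Fin n) K L) {α : Type} {P : (α → K) → L → Prop}
    (hP : DS {w : α ⊕ Fin n → K | P (fun i => w (Sum.inl i)) (J.el b fun j => w (Sum.inr j))}) :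
    DS {v | ∃ x, P v x} := by
  have h1 : {v | ∃ x, P v x} = {v | ∃ u, P v (J.el b u)} := by
    ext v
    simp only [Set.mem_ofPred_eq]
    constructor
    · rintro ⟨x, hx⟩
      exact ⟨b.equivFun x, by rwa [J.el, LinearEquiv.symm_apply_apply]⟩
    · rintro ⟨u, hu⟩
      exact ⟨_, hu⟩
  rw [h1]
  exact DS.ex hP

end

section

variable {K : Type} [Field K] [FirstOrder.Ring.CompatibleRing K]

theorem NIPRel.comap {X Y X' Y' : Type*} {R : X → Y → Prop} (h : NIPRel R) (f : X' → X)
    (g : Y' → Y) : NIPRel fun x y => R (f x) (g y) := by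
  obtain ⟨n, hn⟩ := h
  exact ⟨n, fun a b => hn (fun i => f (a i)) (fun J => g (b J))⟩

theorem nipRel_of_definable (hK : NIPField K) {m k : ℕ} {S : Set (Fin m ⊕ Fin k → K)}
    (hS : DS S) : NIPRel fun (a : Fin m → K) (b : Fin k → K) => Sum.elim a b ∈ S := by
  obtain ⟨A, -, hA⟩ := definable_iff_finitely_definable.1 hS
  obtain ⟨φ, hφ⟩ := definable_iff_exists_formula_sum.1 hA
  let e : (A : Set K) ≃ Fin A.card := A.equivFin
  obtain ⟨n, hn⟩ := hK m (k + A.card) (φ.relabel
    (Sum.elim (fun x => Sum.inr (Fin.natAdd k (e x))) (Sum.map id (Fin.castAdd A.card))))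
  refine ⟨n, fun a b => ?_⟩
  obtain ⟨i, J, h⟩ := hn a (fun J => Fin.append (b J) (fun j => (e.symm j : K)))
  refine ⟨i, J, fun h' => h ?_⟩
  rw [← h', hφ, Formula.realize_relabel]
  simp only [Set.mem_ofPred_eq]
  rw [iff_iff_eq]
  congr 1
  funext x
  rcases x with x | x | x
  · simp
  · simp
  · simp

/-- definable valuation rings -/
theorem ds_of_definable {O : ValuationSubring K} (hO : NV.Definable O) :
    DS {x : Fin 1 → K | x 0 ∈ O} := by
  obtain ⟨p, ψ, c, h⟩ := hO
  rw [DS, definable_iff_exists_formula_sum]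
  refine ⟨ψ.relabel (Sum.elim Sum.inr (fun i => Sum.inl ⟨c i, trivial⟩)), ?_⟩
  ext x
  simp only [Set.mem_ofPred_eq]
  rw [h, Formula.realize_relabel, iff_iff_eq]
  congr 1
  funext y
  rcases y with y | y
  · simp [Subsingleton.elim y 0]
  · simp

theorem DS.mem {O : ValuationSubring K} (hO : NV.Definable O) {α : Type} {f : (α → K) → K}
    (hf : DF f) : DS {v | f v ∈ O} :=
  DS.preimage (F := fun v => fun _ : Fin 1 => f v) (fun _ => hf) (ds_of_definable hO)

theorem DS.mem_max {O : ValuationSubring K} (hO : NV.Definable O) {α : Type} {f : (α → K) → K}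
    (hf : DF f) : DS {v | O.valuation (f v) < 1} := by
  have h1 : DS {x : Fin 1 → K | ¬ ∃ u : Fin 1 → K, u 0 ∈ O ∧ x 0 * u 0 = 1} := by
    refine DS.not (DS.ex ?_)
    exact DS.and (DS.mem hO (DF.proj _)) (DS.eq ((DF.proj _).mul (DF.proj _)) (DF.const _))
  have h2 := DS.preimage (F := fun v => fun _ : Fin 1 => f v) (fun _ => hf) h1
  convert h2 using 1
  ext v
  simp only [Set.mem_ofPred_eq, Set.mem_preimage]
  by_cases h0 : f v = 0
  · simp [h0]
  · rw [val_lt_one_iff O h0]
    constructor
    · rintro h ⟨u, hu, hu1⟩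
      rw [eq_inv_of_mul_eq_one_right hu1] at hu
      exact h hu
    · intro h h3
      exact h ⟨fun _ => (f v)⁻¹, h3, mul_inv_cancel₀ h0⟩

end

end Pool.Agent.K4H89.J
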