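import Mathlib

/-!
# The Baldwin-Saxl condition, and fields without Artin-Schreier extensions
-/

set_option autoImplicit false

namespace Pool.Agent.K4H89.J

open Polynomial

/-- The relation `R` does not have the independence property. -/
def NIPRel {X Y : Type*} (R : X → Y → Prop) : Prop :=
  ∃ n : ℕ, ∀ (a : Fin n → X) (b : Finset (Fin n) → Y),
    ∃ (i : Fin n) (J : Finset (Fin n)), ¬ (R (a i) (b J) ↔ i ∈ J)

/-- The Baldwin-Saxl condition. -/
theorem baldwin_saxl {X A : Type*} [AddCommGroup A] (H : X → AddSubgroup A)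
    (h : NIPRel fun x a => a ∈ H x) :
    ∃ n : ℕ, ∀ m, n ≤ m → ∀ x : Fin m → X, ∃ i, ∀ a : A, (∀ j, j ≠ i → a ∈ H (x j)) →
      a ∈ H (x i) := by
  classical
  obtain ⟨n, hn⟩ := h
  -- first for `n`
  have key : ∀ x : Fin n → X, ∃ i, ∀ a : A, (∀ j, j ≠ i → a ∈ H (x j)) → a ∈ H (x i) := by
    intro x
    by_contra hcon
    push Not at hcon
    choose a ha1 ha2 using hcon
    obtain ⟨j, J, hj⟩ := hn x (fun J => ∑ i ∈ Finset.univ.filter (fun i => i ∉ J), a i)
    apply hj
    constructor
    · intro h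
      by_contra hjJ
      have hmem : j ∈ Finset.univ.filter (fun i => i ∉ J) := by simp [hjJ]
      rw [← Finset.add_sum_erase _ _ hmem] at h
      have hrest : ∑ i ∈ (Finset.univ.filter (fun i => i ∉ J)).erase j, a i ∈ H (x j) :=
        AddSubgroup.sum_mem _ fun i hi => ha1 i j (Finset.ne_of_mem_erase hi).symm
      exact ha2 j ((AddSubgroup.add_mem_cancel_right _ hrest).1 h)
    · intro hjJ
      refine AddSubgroup.sum_mem _ fun i hi => ha1 i j ?_
      rintro rfl
      simp [hjJ] at hi
  refine ⟨n, fun m hm x => ?_⟩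
  obtain ⟨i, hi⟩ := key fun k => x (Fin.castLE hm k)
  refine ⟨Fin.castLE hm i, fun a ha => hi a fun j hj => ha _ fun h => hj ?_⟩
  exact Fin.castLE_injective hm h

section

variable {L : Type*} [Field L] (p : ℕ) [Fact p.Prime] [CharP L p]

/-- Linear independence over the prime field. -/
def Indep {ι : Type*} [Fintype ι] (β : ι → L) : Prop :=
  ∀ e : ι → L, (∀ i, e i ^ p = e i) → ∑ i, e i * β i = 0 → ∀ i, e i = 0

omit [Fact p.Prime] [CharP L p] in
theorem Indep.succAbove {r : ℕ} {β : Fin (r + 1) → L} (hp : p ≠ 0) (h : Indep p β)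
    (i : Fin (r + 1)) : Indep p (fun k => β (i.succAbove k)) := by
  intro e he hs k
  have h1 := h (i.insertNth 0 e) (fun j => by
    refine Fin.succAboveCases i ?_ (fun k => ?_) j
    · simp [zero_pow hp]
    · simpa using he k) (by
    rw [Fin.sum_univ_succAbove _ i]
    simpa using hs) (i.succAbove k)
  simpa using h1

theorem Indep.pow {ι : Type*} [Fintype ι] {β : ι → L} (h : Indep p β) :
    Indep p (fun i => β i ^ p) := by
  intro e he hs
  refine h e he ?_
  have h1 : (∑ i, e i * β i) ^ p = 0 := by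
    rw [← frobenius_def, map_sum]
    simp only [frobenius_def, mul_pow, he]
    exact hs
  exact pow_eq_zero_iff (Fact.out : p.Prime).ne_zero |>.1 h1

/-- elements of the prime field -/
theorem exists_zmod {e : L} (he : e ^ p = e) : ∃ n : ℕ, e = n := by
  classical
  have hp := (Fact.out : p.Prime)
  -- the elements of the prime field are all the roots
  by_contra hcon
  push Not at hcon
  have hP : (X ^ p - X : L[X]) ≠ 0 := FiniteField.X_pow_card_sub_X_ne_zero L hp.one_lt
  have hdeg : (X ^ p - X : L[X]).natDegree = p := FiniteField.X_pow_card_sub_X_natDegree_eq L hp.one_lt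
  have hinj : Function.Injective (fun o : Option (ZMod p) =>
      (Option.elim o e (fun z => ((ZMod.castHom (dvd_refl p) L) z)) : L)) := by
    intro a b hab
    rcases a with _ | a <;> rcases b with _ | b
    · rfl
    · exfalso
      apply hcon b.val
      have : e = (ZMod.castHom (dvd_refl p) L) b := hab
      rw [this, ZMod.castHom_apply, ZMod.natCast_val]
    · exfalso
      apply hcon a.val
      have : (ZMod.castHom (dvd_refl p) L) a = e := hab
      rw [← this, ZMod.castHom_apply, ZMod.natCast_val]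
    · congr 1
      exact (ZMod.castHom (dvd_refl p) L).injective hab
  have h0 := Polynomial.eq_zero_of_natDegree_lt_card_of_eval_eq_zero (X ^ p - X : L[X]) hinj
    (fun o => by
      rcases o with _ | a
      · simp [he]
      · simp only [Option.elim, eval_sub, eval_pow, eval_X]
        rw [← map_pow, ZMod.pow_card, sub_self]) (by
      rw [hdeg, Fintype.card_option, ZMod.card]
      omega)
  exact hP h0

/-- The Moore matrix of independent elements is not singular. -/
theorem moore_det {r : ℕ} {β : Fin r → L} (h : Indep p β) :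
    IsUnit (Matrix.of (fun (j i : Fin r) => β i ^ p ^ (j : ℕ))) := by
  classical
  have hp := (Fact.out : p.Prime)
  rw [Matrix.isUnit_iff_isUnit_det, isUnit_iff_ne_zero]
  intro hdet
  obtain ⟨v, hv0, hv⟩ := Matrix.exists_vecMul_eq_zero_iff.2 hdet
  apply hv0
  rcases Nat.eq_zero_or_pos r with rfl | hr
  · exact Subsingleton.elim _ _
  have hv' : ∀ i, ∑ j : Fin r, v j * β i ^ p ^ (j : ℕ) = 0 := by
    intro i
    have := congrFun hv i
    simpa [Matrix.vecMul, dotProduct] using this
  set P : L[X] := ∑ j : Fin r, C (v j) * X ^ p ^ (j : ℕ) with hP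
  have hdeg : P.natDegree ≤ p ^ (r - 1) := by
    refine natDegree_sum_le_of_forall_le _ _ fun j _ => ?_
    refine (natDegree_C_mul_X_pow_le _ _).trans ?_
    exact Nat.pow_le_pow_right hp.pos (by omega)
  have hlt : p ^ (r - 1) < p ^ r := Nat.pow_lt_pow_right hp.one_lt (by omega)
  have hinj : Function.Injective (fun e : Fin r → ZMod p =>
      ∑ i, (ZMod.castHom (dvd_refl p) L) (e i) * β i) := by
    intro e e' hee
    funext i
    have h1 := h (fun i => (ZMod.castHom (dvd_refl p) L) (e i - e' i)) (fun i => by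
      rw [← map_pow, ZMod.pow_card]) (by
      simp only [map_sub, sub_mul, Finset.sum_sub_distrib]
      rw [sub_eq_zero]
      exact hee) i
    have h2 : e i - e' i = 0 := (ZMod.castHom (dvd_refl p) L).injective (by
      rw [map_zero]
      exact h1)
    exact sub_eq_zero.1 h2
  have h0 := Polynomial.eq_zero_of_natDegree_lt_card_of_eval_eq_zero P hinj (fun e => by
    rw [hP, eval_finsetSum]
    simp only [eval_mul, eval_C, eval_pow, eval_X]
    have h2 : ∀ j : ℕ, (∑ i, (ZMod.castHom (dvd_refl p) L) (e i) * β i) ^ p ^ j =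
        ∑ i, (ZMod.castHom (dvd_refl p) L) (e i) * β i ^ p ^ j := by
      intro j
      rw [← iterateFrobenius_def, map_sum]
      refine Finset.sum_congr rfl fun i _ => ?_
      rw [iterateFrobenius_def, mul_pow, ← map_pow, ZMod.pow_card_pow]
    simp only [h2, Finset.mul_sum]
    rw [Finset.sum_comm]
    refine Finset.sum_eq_zero fun i _ => ?_
    have h3 : ∀ j : Fin r, v j * ((ZMod.castHom (dvd_refl p) L) (e i) * β i ^ p ^ (j : ℕ)) =
        (ZMod.castHom (dvd_refl p) L) (e i) * (v j * β i ^ p ^ (j : ℕ)) := fun j => by ring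
    simp only [h3]
    rw [← Finset.mul_sum, hv', mul_zero]) (by
    rw [Fintype.card_fun, ZMod.card, Fintype.card_fin]
    omega)
  funext j
  have h4 : P.coeff (p ^ (j : ℕ)) = v j := by
    rw [hP, finsetSum_coeff]
    rw [Finset.sum_eq_single j]
    · simp
    · intro k _ hk
      rw [coeff_C_mul, coeff_X_pow, if_neg, mul_zero]
      intro h5
      apply hk
      exact Fin.ext (Nat.pow_right_injective hp.two_le h5).symm
    · simp
  rw [← h4, h0, coeff_zero]
  rfl

theorem moore_solve {r : ℕ} {β : Fin r → L} (h : Indep p β) (c : Fin r → L) :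
    ∃ x : Fin r → L, ∀ j : Fin r, ∑ i, β i ^ p ^ (j : ℕ) * x i = c j := by
  obtain ⟨x, hx⟩ := (Matrix.mulVec_surjective_iff_isUnit.2 (moore_det p h)) c
  refine ⟨x, fun j => ?_⟩
  have := congrFun hx j
  simpa [Matrix.mulVec, dotProduct] using this

theorem moore_inj {r : ℕ} {β : Fin r → L} (h : Indep p β) {x : Fin r → L}
    (hx : ∀ j : Fin r, ∑ i, β i ^ p ^ (j : ℕ) * x i = 0) (i : Fin r) : x i = 0 := by
  have h1 := (Matrix.mulVec_injective_iff_isUnit.2 (moore_det p h))
  have h2 : x = 0 := h1 (by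
    rw [Matrix.mulVec_zero]
    funext j
    simpa [Matrix.mulVec, dotProduct] using hx j)
  rw [h2]
  rfl

/-- the solution of the reduced system -/
theorem exists_c {r : ℕ} {β : Fin (r + 1) → L} (h : Indep p β) :
    ∃ c : Fin (r + 1) → L, (∀ i, c i ≠ 0) ∧
      ∀ j : Fin r, ∑ i, β i ^ p ^ ((j : ℕ) + 1) * c i = 0 := by
  have hp := (Fact.out : p.Prime)
  have h1 := (h.succAbove p hp.ne_zero (Fin.last r)).pow p
  obtain ⟨x, hx⟩ := moore_solve p h1 (fun j => -(β (Fin.last r) ^ p ^ ((j : ℕ) + 1)))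
  have hrel : ∀ j : Fin r, ∑ i, β i ^ p ^ ((j : ℕ) + 1) * ((Fin.last r).insertNth (1 : L) x :
      Fin (r + 1) → L) i = 0 := by
    intro j
    rw [Fin.sum_univ_succAbove _ (Fin.last r)]
    have h2 := hx j
    simp only [← pow_mul, ← pow_succ'] at h2
    simp only [Fin.insertNth_apply_same, Fin.insertNth_apply_succAbove, mul_one]
    rw [h2]
    ring
  refine ⟨(Fin.last r).insertNth (1 : L) x, fun i hi => ?_, hrel⟩
  have h3 := (h.succAbove p hp.ne_zero i).pow p
  have h4 := moore_inj p h3 (x := fun k => ((Fin.last r).insertNth (1 : L) x :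
      Fin (r + 1) → L) (i.succAbove k)) (fun j => by
    have h5 := hrel j
    rw [Fin.sum_univ_succAbove _ i, hi, mul_zero, zero_add] at h5
    simp only [← pow_mul, ← pow_succ']
    exact h5)
  by_cases hil : i = Fin.last r
  · rw [hil, Fin.insertNth_apply_same] at hi
    exact one_ne_zero hi
  · obtain ⟨k, hk⟩ := Fin.exists_succAbove_eq (Ne.symm hil)
    have h6 := h4 k
    simp only [hk, Fin.insertNth_apply_same] at h6
    exact one_ne_zero h6

/-- the kernel of the reduced system is one-dimensional -/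
theorem kernel_one {r : ℕ} {β c y : Fin (r + 1) → L} (h : Indep p β) (hc : ∀ i, c i ≠ 0)
    (hcr : ∀ j : Fin r, ∑ i, β i ^ p ^ ((j : ℕ) + 1) * c i = 0)
    (hyr : ∀ j : Fin r, ∑ i, β i ^ p ^ ((j : ℕ) + 1) * y i = 0) :
    ∃ t : L, ∀ i, y i = t * c i := by
  have hp := (Fact.out : p.Prime)
  refine ⟨y 0 / c 0, fun i => ?_⟩
  set t := y 0 / c 0 with ht
  have hz0 : y 0 - t * c 0 = 0 := by
    rw [ht, div_mul_cancel₀ _ (hc 0), sub_self]
  have h3 := (h.succAbove p hp.ne_zero 0).pow p
  have h4 := moore_inj p h3 (x := fun k => y ((0 : Fin (r + 1)).succAbove k) -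
      t * c ((0 : Fin (r + 1)).succAbove k)) (fun j => by
    have h5 : ∑ i, β i ^ p ^ ((j : ℕ) + 1) * (y i - t * c i) = 0 := by
      have h6 : ∀ i, β i ^ p ^ ((j : ℕ) + 1) * (y i - t * c i) =
          β i ^ p ^ ((j : ℕ) + 1) * y i - t * (β i ^ p ^ ((j : ℕ) + 1) * c i) := fun i => by ring
      simp only [h6, Finset.sum_sub_distrib, ← Finset.mul_sum]
      rw [hyr, hcr, mul_zero, sub_self]
    rw [Fin.sum_univ_succAbove _ (0 : Fin (r + 1)), hz0, mul_zero, zero_add] at h5
    simp only [← pow_mul, ← pow_succ']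
    exact h5)
  by_cases hi : i = 0
  · rw [hi]
    exact sub_eq_zero.1 hz0
  · obtain ⟨k, hk⟩ := Fin.exists_succAbove_eq hi
    have h6 := h4 k
    simp only [hk] at h6
    exact sub_eq_zero.1 h6

/-- the parametrization -/
theorem param {r : ℕ} {γ c : Fin (r + 1) → L} (h : Indep p γ) (hc : ∀ i, c i ≠ 0)
    (hcr : ∀ j : Fin r, ∑ i, γ i ^ p ^ ((j : ℕ) + 1) * c i = 0) (w : L) :
    ∃ x : Fin (r + 1) → L, ∑ i, γ i * x i = w ∧ ∃ t : L, ∀ i, x i ^ p - x i = t * c i := by
  obtain ⟨x, hx⟩ := moore_solve p h (fun j => w ^ p ^ (j : ℕ))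
  refine ⟨x, ?_, kernel_one p h hc hcr fun j => ?_⟩
  · have := hx 0
    simpa using this
  · have h1 := hx j.castSucc
    have h2 := hx j.succ
    simp only [Fin.val_castSucc, Fin.val_succ] at h1 h2
    have h3 : (∑ i, γ i ^ p ^ (j : ℕ) * x i) ^ p = ∑ i, γ i ^ p ^ ((j : ℕ) + 1) * x i ^ p := by
      rw [← frobenius_def, map_sum]
      refine Finset.sum_congr rfl fun i _ => ?_
      rw [frobenius_def, mul_pow, ← pow_mul, ← pow_succ]
    have h4 : ∀ i, γ i ^ p ^ ((j : ℕ) + 1) * (x i ^ p - x i) =
        γ i ^ p ^ ((j : ℕ) + 1) * x i ^ p - γ i ^ p ^ ((j : ℕ) + 1) * x i := fun i => by ring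
    simp only [h4, Finset.sum_sub_distrib]
    rw [← h3, h1, h2, ← pow_mul, ← pow_succ, sub_self]

/-- the additive subgroup `a (x ^ p - x)` -/
def asGroup (a : L) : AddSubgroup L where
  carrier := {t | ∃ x, t = a * (x ^ p - x)}
  add_mem' := by
    rintro _ _ ⟨x, rfl⟩ ⟨y, rfl⟩
    refine ⟨x + y, ?_⟩
    rw [add_pow_char]
    ring
  zero_mem' := ⟨0, by rw [zero_pow (Fact.out : p.Prime).ne_zero, sub_zero, mul_zero]⟩
  neg_mem' := by
    rintro _ ⟨x, rfl⟩
    refine ⟨-x, ?_⟩
    have h1 : (-x) ^ p = -(x ^ p) := by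
      have := sub_pow_char (0 : L) x (p := p)
      simpa [zero_pow (Fact.out : p.Prime).ne_zero] using this
    rw [h1]
    ring

theorem mem_asGroup {a t : L} : t ∈ asGroup p a ↔ ∃ x, t = a * (x ^ p - x) := Iff.rfl

/-- Infinitely many independent elements. -/
theorem exists_indep [Infinite L] (r : ℕ) : ∃ β : Fin r → L, Indep p β := by
  classical
  have hp := (Fact.out : p.Prime)
  induction r with
  | zero => exact ⟨fun i => i.elim0, fun e _ _ i => i.elim0⟩
  | succ r ih =>
    obtain ⟨β, hβ⟩ := ih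
    obtain ⟨b, hb⟩ := Set.Finite.exists_notMem (s := Set.range (fun e : Fin r → ZMod p =>
      ∑ i, (ZMod.castHom (dvd_refl p) L) (e i) * β i)) (Set.finite_range _)
    refine ⟨Fin.snoc β b, fun e he hs => ?_⟩
    rw [Fin.sum_univ_castSucc] at hs
    simp only [Fin.snoc_castSucc, Fin.snoc_last] at hs
    have hlast : e (Fin.last r) = 0 := by
      by_contra hne
      apply hb
      have hq : ∀ i : Fin r, ∃ n : ℕ, -(e i.castSucc / e (Fin.last r)) = n := by
        intro i
        apply exists_zmod p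
        have h1 : (-(e i.castSucc / e (Fin.last r))) ^ p =
            -((e i.castSucc / e (Fin.last r)) ^ p) := by
          have := sub_pow_char (0 : L) (e i.castSucc / e (Fin.last r)) (p := p)
          simpa [zero_pow hp.ne_zero] using this
        rw [h1, div_pow, he, he]
      choose n hn using hq
      refine ⟨fun i => (n i : ZMod p), ?_⟩
      simp only [map_natCast, ← hn]
      have h2 : b = -(∑ i : Fin r, e i.castSucc * β i) / e (Fin.last r) := by
        rw [eq_div_iff hne]
        linear_combination hs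
      rw [h2, neg_div, Finset.sum_div, ← Finset.sum_neg_distrib]
      refine Finset.sum_congr rfl fun i _ => ?_
      ring
    have h3 : ∀ i : Fin r, e i.castSucc = 0 := by
      refine hβ (fun i => e i.castSucc) (fun i => he _) ?_
      rw [hlast, zero_mul, add_zero] at hs
      exact hs
    intro i
    refine Fin.lastCases hlast h3 i

/-- Kaplan, Scanlon and Wagner: if the family of the groups `a (x ^ p - x)` does not have the
independence property, there are no Artin-Schreier extensions. -/
theorem as_closed [Infinite L] (h : NIPRel fun a t : L => ∃ x, t = a * (x ^ p - x)) (w : L) :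
    ∃ y : L, y ^ p - y = w := by
  have hp := (Fact.out : p.Prime)
  obtain ⟨n, hn⟩ := baldwin_saxl (asGroup (L := L) p) h
  obtain ⟨β, hβ⟩ := exists_indep (L := L) p (n + 2)
  obtain ⟨c, hc, hcr⟩ := exists_c p hβ
  obtain ⟨i₀, hi₀⟩ := hn (n + 2) (by omega) (fun i => (c i)⁻¹)
  set b := β i₀ with hb
  have hb0 : b ≠ 0 := by
    intro h0
    have h1 := hβ (fun i => if i = i₀ then 1 else 0) (fun i => by
      by_cases h : i = i₀
      · simp [h]
      · simp [h, zero_pow hp.ne_zero]) (by
      simp [← hb, h0]) i₀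
    simp at h1
  set γ : Fin (n + 1) → L := fun k => (β (i₀.succAbove k) / b) ^ p - β (i₀.succAbove k) / b with hγ
  have hγI : Indep p γ := by
    intro e he hs k
    have h1 : (∑ k, e k * (β (i₀.succAbove k) / b)) ^ p = ∑ k, e k * (β (i₀.succAbove k) / b) := by
      rw [← sub_eq_zero]
      have h2 : (∑ k, e k * (β (i₀.succAbove k) / b)) ^ p =
          ∑ k, e k * (β (i₀.succAbove k) / b) ^ p := by
        rw [← frobenius_def, map_sum]
        refine Finset.sum_congr rfl fun i _ => ?_
        rw [frobenius_def, mul_pow, he]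
      rw [h2, ← Finset.sum_sub_distrib, ← hs]
      refine Finset.sum_congr rfl fun i _ => ?_
      rw [hγ]
      ring
    set E := ∑ k, e k * (β (i₀.succAbove k) / b) with hE
    have h3 := hβ (i₀.insertNth (-E) e) (fun j => by
      refine Fin.succAboveCases i₀ ?_ (fun k => ?_) j
      · simp only [Fin.insertNth_apply_same]
        have h4 : (-E) ^ p = -(E ^ p) := by
          have := sub_pow_char (0 : L) E (p := p)
          simpa [zero_pow hp.ne_zero] using this
        rw [h4, h1]
      · simpa using he k) (by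
      rw [Fin.sum_univ_succAbove _ i₀]
      simp only [Fin.insertNth_apply_same, Fin.insertNth_apply_succAbove]
      have h5 : E * b = ∑ k, e k * β (i₀.succAbove k) := by
        rw [hE, Finset.sum_mul]
        refine Finset.sum_congr rfl fun i _ => ?_
        field_simp
      rw [← hb, ← h5]
      ring) (i₀.succAbove k)
    simpa using h3
  have hrel : ∀ j : ℕ, j < n + 1 →
      ∑ k, (β (i₀.succAbove k) / b) ^ p ^ (j + 1) * c (i₀.succAbove k) = -(c i₀) := by
    intro j hj
    have h1 := hcr ⟨j, hj⟩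
    rw [Fin.sum_univ_succAbove _ i₀] at h1
    simp only [← hb] at h1
    have hbp : b ^ p ^ (j + 1) ≠ 0 := pow_ne_zero _ hb0
    have h2 : ∑ k, (β (i₀.succAbove k) / b) ^ p ^ (j + 1) * c (i₀.succAbove k) =
        (∑ k, β (i₀.succAbove k) ^ p ^ (j + 1) * c (i₀.succAbove k)) / b ^ p ^ (j + 1) := by
      rw [Finset.sum_div]
      refine Finset.sum_congr rfl fun i _ => ?_
      rw [div_pow]
      ring
    rw [h2, div_eq_iff hbp]
    linear_combination h1
  have hγr : ∀ j : Fin n, ∑ k, γ k ^ p ^ ((j : ℕ) + 1) * c (i₀.succAbove k) = 0 := by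
    intro j
    have h1 := hrel j (by omega)
    have h2 := hrel (j + 1) (by omega)
    have h3 : ∀ k, γ k ^ p ^ ((j : ℕ) + 1) * c (i₀.succAbove k) =
        (β (i₀.succAbove k) / b) ^ p ^ ((j : ℕ) + 1 + 1) * c (i₀.succAbove k) -
        (β (i₀.succAbove k) / b) ^ p ^ ((j : ℕ) + 1) * c (i₀.succAbove k) := by
      intro k
      rw [hγ]
      simp only
      rw [sub_pow_char_pow, ← pow_mul, ← pow_succ', sub_mul]
    simp only [h3, Finset.sum_sub_distrib]
    rw [h1, h2, sub_self]
  obtain ⟨x, hx1, t, hx2⟩ := param p hγI (fun k => hc (i₀.succAbove k)) hγr w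
  obtain ⟨x₀, hx₀⟩ := hi₀ t (fun j hj => by
    obtain ⟨k, hk⟩ := Fin.exists_succAbove_eq hj
    rw [← hk]
    refine ⟨x k, ?_⟩
    rw [hx2]
    field_simp [hc (i₀.succAbove k)])
  have hx₀' : x₀ ^ p - x₀ = t * c i₀ := by
    rw [hx₀]
    field_simp [hc i₀]
  set u : L := b * x₀ + ∑ k, β (i₀.succAbove k) * x k with hu
  refine ⟨u / b, ?_⟩
  have h1 : u ^ p = b ^ p * x₀ + ∑ k, β (i₀.succAbove k) ^ p * x k := by
    have h2 : u ^ p = b ^ p * x₀ ^ p + ∑ k, β (i₀.succAbove k) ^ p * x k ^ p := by
      rw [hu, add_pow_char, mul_pow]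
      congr 1
      rw [← frobenius_def, map_sum]
      refine Finset.sum_congr rfl fun i _ => ?_
      rw [frobenius_def, mul_pow]
    have h3 := hcr 0
    rw [Fin.sum_univ_succAbove _ i₀] at h3
    simp only [Fin.val_zero, zero_add, pow_one, ← hb] at h3
    have h4 : x₀ ^ p = x₀ + t * c i₀ := by linear_combination hx₀'
    have h5 : ∀ k, x k ^ p = x k + t * c (i₀.succAbove k) := fun k => by linear_combination hx2 k
    rw [h2, h4]
    simp only [h5, mul_add, Finset.sum_add_distrib]
    have h6 : ∑ k, β (i₀.succAbove k) ^ p * (t * c (i₀.succAbove k)) =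
        t * ∑ k, β (i₀.succAbove k) ^ p * c (i₀.succAbove k) := by
      rw [Finset.mul_sum]
      refine Finset.sum_congr rfl fun i _ => ?_
      ring
    rw [h6]
    linear_combination t * h3
  have h7 : w = ∑ k, ((β (i₀.succAbove k) / b) ^ p * x k - β (i₀.succAbove k) / b * x k) := by
    rw [← hx1]
    refine Finset.sum_congr rfl fun i _ => ?_
    rw [hγ]
    ring
  rw [h7, Finset.sum_sub_distrib, div_pow, h1, hu]
  have hbp : b ^ p ≠ 0 := pow_ne_zero _ hb0
  have h8 : ∑ k, (β (i₀.succAbove k) / b) ^ p * x k =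
      (∑ k, β (i₀.succAbove k) ^ p * x k) / b ^ p := by
    rw [Finset.sum_div]
    refine Finset.sum_congr rfl fun i _ => ?_
    rw [div_pow]
    ring
  have h9 : ∑ k, β (i₀.succAbove k) / b * x k = (∑ k, β (i₀.succAbove k) * x k) / b := by
    rw [Finset.sum_div]
    refine Finset.sum_congr rfl fun i _ => ?_
    ring
  rw [h8, h9, add_div, add_div, mul_div_cancel_left₀ _ hbp, mul_div_cancel_left₀ _ hb0]
  ring

end

end Pool.Agent.K4H89.J
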