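import Pool.Agent.K4H89.J.Inter

/-!
# The core of Johnson's theorem on henselian valuations of positive characteristic
-/

set_option autoImplicit false

namespace Pool.Agent.K4H89.J

open Polynomial

section

variable {K L Ω : Type} [Field K] [Field L] [Field Ω] [Algebra K L] [Algebra K Ω]
  (p : ℕ) [Fact p.Prime] (W : ValuationSubring Ω)

/-- The elements of `L` all of whose conjugates are nonunits of `W`. -/
def JJ : AddSubgroup L where
  carrier := {y | ∀ σ : L →ₐ[K] Ω, W.valuation (σ y) < 1}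
  add_mem' := fun {x y} hx hy σ => by
    rw [map_add]
    exact W.valuation.map_add_lt (hx σ) (hy σ)
  zero_mem' := fun σ => by
    rw [map_zero, map_zero]
    exact zero_lt_one
  neg_mem' := fun {x} hx σ => by
    rw [map_neg, Valuation.map_neg]
    exact hx σ

theorem mem_JJ {y : L} : y ∈ JJ (K := K) W ↔ ∀ σ : L →ₐ[K] Ω, W.valuation (σ y) < 1 := Iff.rfl

/-- The Artin-Schreier map. -/
def phi [CharP L p] : L →+ L where
  toFun x := x ^ p - x
  map_zero' := by rw [zero_pow (Fact.out : p.Prime).ne_zero, sub_zero]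
  map_add' x y := by rw [add_pow_char]; ring

theorem phi_apply [CharP L p] (x : L) : phi p x = x ^ p - x := rfl

/-- elements whose residue is in the prime field -/
theorem res_int [CharP Ω p] {z : Ω} (hz : W.valuation (z ^ p - z) < 1) :
    ∃ n : ℕ, W.valuation (z - n) < 1 := by
  have hp := (Fact.out : p.Prime)
  have hz1 : W.valuation z ≤ 1 := by
    by_contra hcon
    rw [not_le] at hcon
    have h1 : W.valuation z < W.valuation (z ^ p) := by
      rw [map_pow]
      exact lt_self_pow₀ hcon hp.one_lt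
    rw [Valuation.map_sub_eq_of_lt_left _ h1, map_pow] at hz
    exact absurd hz (not_lt.2 (one_le_pow₀ hcon.le))
  have hzW : z ∈ W := (W.valuation_le_one_iff z).1 hz1
  have hch : CharP (IsLocalRing.ResidueField W) p := by
    rw [CharP.charP_iff_prime_eq_zero hp]
    have h2 : (p : W) = 0 := Subtype.ext (by simp)
    rw [← map_natCast (IsLocalRing.residue W), h2, map_zero]
  have key : ∀ w : W, IsLocalRing.residue W w = 0 ↔ W.valuation (w : Ω) < 1 := by
    intro w
    rw [IsLocalRing.residue_eq_zero_iff]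
    exact (W.valuation_lt_one_iff w)
  obtain ⟨n, hn⟩ := exists_zmod (L := IsLocalRing.ResidueField W) p
    (e := IsLocalRing.residue W ⟨z, hzW⟩) (by
    rw [← sub_eq_zero, ← map_pow, ← map_sub, key]
    exact hz)
  refine ⟨n, ?_⟩
  rw [← sub_eq_zero, ← map_natCast (IsLocalRing.residue W), ← map_sub, key] at hn
  exact hn

variable {O : ValuationSubring K}

theorem val_le (hW : ∀ x : K, algebraMap K Ω x ∈ W ↔ x ∈ O) {r : K} (hr : r ∈ O) :
    W.valuation (algebraMap K Ω r) ≤ 1 :=
  (W.valuation_le_one_iff _).2 ((hW r).2 hr)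

theorem smul_mem_JJ (hW : ∀ x : K, algebraMap K Ω x ∈ W ↔ x ∈ O) {r : K} (hr : r ∈ O) {x : L}
    (hx : x ∈ JJ (K := K) W) : algebraMap K L r * x ∈ JJ (K := K) W := by
  intro σ
  rw [map_mul, AlgHom.commutes, map_mul]
  calc W.valuation (algebraMap K Ω r) * W.valuation (σ x) ≤ 1 * W.valuation (σ x) := by
        gcongr
        exact val_le W hW hr
    _ < 1 := by
        rw [one_mul]
        exact hx σ

theorem phi_mem_JJ [CharP L p] {x : L} (hx : x ∈ JJ (K := K) W) : phi p x ∈ JJ (K := K) W := by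
  intro σ
  rw [phi_apply, map_sub, map_pow]
  refine W.valuation.map_sub_lt ?_ (hx σ)
  rw [map_pow]
  exact pow_lt_one₀ zero_le (hx σ) (Fact.out : p.Prime).ne_zero

/-- The image of the Artin-Schreier map has finite index. -/
theorem relIndex_ne_zero [FiniteDimensional K L] [CharP L p] [CharP Ω p]
    (hAS : ∀ x : L, ∃ y, y ^ p - y = x) :
    ((JJ (K := K) (Ω := Ω) (L := L) W).map (phi p)).relIndex (JJ (K := K) (L := L) W) ≠ 0 := by
  classical
  have hp := (Fact.out : p.Prime)
  choose y hy using hAS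
  have h1 : ∀ (x : JJ (K := K) (L := L) W) (σ : L →ₐ[K] Ω),
      ∃ n : ℕ, W.valuation (σ (y x) - n) < 1 := by
    intro x σ
    apply res_int p W
    rw [← map_pow, ← map_sub, hy]
    exact x.2 σ
  choose n hn using h1
  have hfin : Finite (JJ (K := K) (L := L) W ⧸
      ((JJ (K := K) (Ω := Ω) (L := L) W).map (phi p)).addSubgroupOf (JJ (K := K) (L := L) W)) := by
    refine Finite.of_injective (fun q => fun σ : L →ₐ[K] Ω => (n q.out σ : ZMod p)) ?_
    intro q q' hqq
    rw [← QuotientAddGroup.out_eq' q, ← QuotientAddGroup.out_eq' q']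
    rw [QuotientAddGroup.eq]
    rw [AddSubgroup.mem_addSubgroupOf]
    refine ⟨y q'.out - y q.out, fun σ => ?_, ?_⟩
    · have h2 : (n q.out σ : ZMod p) = n q'.out σ := congrFun hqq σ
      have h3 : (n q.out σ : Ω) = n q'.out σ := by
        rw [ZMod.natCast_eq_natCast_iff] at h2
        exact (CharP.cast_eq_iff_mod_eq Ω p).2 h2
      have h4 : σ (y q'.out - y q.out) = (σ (y q'.out) - n q'.out σ) - (σ (y q.out) - n q.out σ) := by
        rw [map_sub, h3]
        ring
      rw [h4]
      exact W.valuation.map_sub_lt (hn _ σ) (hn _ σ)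
    · rw [map_sub, phi_apply, phi_apply, hy, hy]
      push_cast
      ring
  exact AddSubgroup.index_ne_zero_of_finite

/-- multiplication by an element of `K` -/
def mulK (r : K) : L →+ L := AddMonoidHom.mulLeft (algebraMap K L r)

theorem mulK_apply (r : K) (x : L) : mulK r x = algebraMap K L r * x := rfl

/-- The core of the theorem. -/
theorem core [FiniteDimensional K L] [CharP L p] [CharP Ω p]
    (hW : ∀ x : K, algebraMap K Ω x ∈ W ↔ x ∈ O)
    (hAS : ∀ x : L, ∃ y, y ^ p - y = x) (hinf : Infinite (IsLocalRing.ResidueField O))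
    (hN : NIPRel fun (r : K) (x : L) => ∃ z : L, (∀ σ : L →ₐ[K] Ω, W.valuation (σ z) < 1) ∧
      z ^ p - z = algebraMap K L r * x)
    {y₀ : L} (h0 : ∀ σ : L →ₐ[K] Ω, W.valuation (σ y₀) < 1 ∨ W.valuation (σ y₀ - 1) < 1)
    {σ₁ σ₂ : L →ₐ[K] Ω} (h1 : W.valuation (σ₁ y₀ - 1) < 1) (h2 : W.valuation (σ₂ y₀) < 1) :
    False := by
  classical
  have hp := (Fact.out : p.Prime)
  set J := JJ (K := K) (Ω := Ω) (L := L) W with hJ
  set H : K → AddSubgroup L := fun r => (J.map (phi p)).comap (mulK r) with hH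
  have hmemH : ∀ (r : K) (x : L), x ∈ H r ↔ ∃ z : L, (∀ σ : L →ₐ[K] Ω, W.valuation (σ z) < 1) ∧
      z ^ p - z = algebraMap K L r * x := fun r x => Iff.rfl
  have hne := relIndex_ne_zero (K := K) (L := L) p W hAS
  have hN' : NIPRel fun (r : K) (x : L) => x ∈ H r := hN
  have hle : ∀ r ∈ O, J.map (mulK r) ≤ J := by
    rintro r hr _ ⟨x, hx, rfl⟩
    exact smul_mem_JJ W hW hr hx
  have hfin := finite_inter (J := J) (H := H) hN' {r | r ∈ O} ((J.map (phi p)).relIndex J) (by
    intro r hr
    rw [hH]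
    simp only
    rw [AddSubgroup.relIndex_comap]
    refine ⟨fun h => hne (AddSubgroup.relIndex_eq_zero_of_le_right (hle r hr) h), ?_⟩
    exact AddSubgroup.relIndex_le_of_le_right (hle r hr) hne)
  set N := J ⊓ ⨅ r ∈ {r | r ∈ O}, H r with hNdef
  have hmemN : ∀ x : L, x ∈ N ↔ x ∈ J ∧ ∀ r ∈ O, x ∈ H r := by
    intro x
    rw [hNdef, AddSubgroup.mem_inf]
    simp only [AddSubgroup.mem_iInf]
    rfl
  have hstable : ∀ s ∈ O, ∀ x ∈ N, algebraMap K L s * x ∈ N := by
    intro s hs x hx
    rw [hmemN] at hx ⊢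
    refine ⟨smul_mem_JJ W hW hs hx.1, fun r hr => ?_⟩
    have h3 := hx.2 (r * s) (O.mul_mem _ _ hr hs)
    rw [hmemH] at h3 ⊢
    rw [map_mul, mul_assoc] at h3
    exact h3
  have hJN : J ≤ N := by
    intro x hx
    have hfi : Finite (J ⧸ N.addSubgroupOf J) := by
      have : (N.addSubgroupOf J).FiniteIndex := ⟨hfin⟩
      exact AddSubgroup.finite_quotient_of_finiteIndex
    obtain ⟨s, hs⟩ := (IsLocalRing.residue_surjective (R := O)).hasRightInverse
    obtain ⟨c, c', hcc, heq⟩ := Finite.exists_ne_map_eq_of_infinite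
      (fun c : IsLocalRing.ResidueField O =>
        (QuotientAddGroup.mk (⟨algebraMap K L (s c : K) * x, smul_mem_JJ W hW (s c).2 hx⟩ : J) :
          J ⧸ N.addSubgroupOf J))
    rw [QuotientAddGroup.eq, AddSubgroup.mem_addSubgroupOf] at heq
    have h3 : algebraMap K L ((s c' : K) - (s c : K)) * x ∈ N := by
      rw [map_sub, sub_mul, sub_eq_neg_add]
      exact heq
    have hu : IsUnit (s c' - s c) := by
      by_contra hcon
      have h4 : s c' - s c ∈ IsLocalRing.maximalIdeal O := hcon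
      rw [← IsLocalRing.residue_eq_zero_iff, map_sub, hs, hs, sub_eq_zero] at h4
      exact hcc h4.symm
    obtain ⟨u, hu⟩ := hu
    have h5 : ((u : O) : K) * (((u⁻¹ : Oˣ) : O) : K) = 1 := by
      rw [← MulMemClass.coe_mul, Units.mul_inv]
      rfl
    have h6 : ((u : O) : K) = (s c' : K) - (s c : K) := by rw [hu]; rfl
    have h7 := hstable _ ((u⁻¹ : Oˣ) : O).2 _ h3
    rw [← h6, ← mul_assoc, ← map_mul, mul_comm (((u⁻¹ : Oˣ) : O) : K), h5, map_one, one_mul] at h7
    exact h7
  -- the contradiction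
  have hx0 : phi p y₀ ∈ J := by
    intro σ
    rw [phi_apply, map_sub, map_pow]
    rcases h0 σ with h | h
    · refine W.valuation.map_sub_lt ?_ h
      rw [map_pow]
      exact pow_lt_one₀ zero_le h hp.ne_zero
    · have e1 : (σ y₀) ^ p - σ y₀ = (σ y₀ - 1) ^ p - (σ y₀ - 1) := by
        rw [sub_pow_char, one_pow]
        ring
      rw [e1]
      refine W.valuation.map_sub_lt ?_ h
      rw [map_pow]
      exact pow_lt_one₀ zero_le h hp.ne_zero
  obtain ⟨z, hz, hz1⟩ := (hmemH 1 _).1 (((hmemN _).1 (hJN hx0)).2 1 O.one_mem)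
  rw [map_one, one_mul, phi_apply] at hz1
  obtain ⟨n, hn⟩ := exists_zmod (L := L) p (e := y₀ - z) (by
    rw [sub_pow_char]
    linear_combination -hz1)
  have h3 : W.valuation (σ₁ y₀ - n) < 1 := by
    have e1 : σ₁ y₀ - n = σ₁ z := by
      have := congrArg σ₁ hn
      rw [map_sub, map_natCast] at this
      linear_combination this
    rw [e1]
    exact hz σ₁
  have h4 : W.valuation (σ₂ y₀ - n) < 1 := by
    have e1 : σ₂ y₀ - n = σ₂ z := by
      have := congrArg σ₂ hn
      rw [map_sub, map_natCast] at this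
      linear_combination this
    rw [e1]
    exact hz σ₂
  have h5 : W.valuation (1 : Ω) < 1 := by
    have e1 : (1 : Ω) = (σ₁ y₀ - n) - (σ₁ y₀ - 1) - ((σ₂ y₀ - n) - σ₂ y₀) := by ring
    rw [e1]
    exact W.valuation.map_sub_lt (W.valuation.map_sub_lt h3 h1) (W.valuation.map_sub_lt h4 h2)
  rw [map_one] at h5
  exact lt_irrefl _ h5

end

end Pool.Agent.K4H89.J
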