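import Pool.Agent.K4H89.J.Johnson
import Pool.Agent.K4H89.NV.Final

/-!
# Definable henselian valuations of NIP fields of positive characteristic
-/

set_option autoImplicit false

namespace Pool.Agent.K4H89.J

open FirstOrder FirstOrder.Language
open Pool.Agent.W882.Nip3 (NIPField)

/-- The sentence which says that the formula does not have the independence property for `n`. -/
noncomputable def nipS {m k : ℕ} (φ : FirstOrder.Language.ring.Formula (Fin m ⊕ Fin k)) (n : ℕ) :
    FirstOrder.Language.ring.Formula ((Fin n × Fin m) ⊕ (Finset (Fin n) × Fin k)) :=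
  open scoped Classical in
  Formula.iInf (fun q : Fin n × Finset (Fin n) =>
    if q.1 ∈ q.2 then φ.relabel (Sum.map (fun x => (q.1, x)) (fun y => (q.2, y)))
    else (φ.relabel (Sum.map (fun x => (q.1, x)) (fun y => (q.2, y)))).not)

theorem realize_nipS {K : Type} [Field K] [FirstOrder.Ring.CompatibleRing K] {m k : ℕ}
    (φ : FirstOrder.Language.ring.Formula (Fin m ⊕ Fin k)) (n : ℕ)
    (a : Fin n → Fin m → K) (b : Finset (Fin n) → Fin k → K) :
    (nipS φ n).Realize (Sum.elim (fun q => a q.1 q.2) (fun q => b q.1 q.2)) ↔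
      ∀ (i : Fin n) (J : Finset (Fin n)), (φ.Realize (Sum.elim (a i) (b J)) ↔ i ∈ J) := by
  classical
  rw [nipS, Formula.realize_iInf]
  constructor
  · intro h i J
    have h1 := h (i, J)
    have h2 : (Sum.elim (fun q : Fin n × Fin m => a q.1 q.2)
        (fun q : Finset (Fin n) × Fin k => b q.1 q.2)) ∘
        (Sum.map (fun x => (i, x)) (fun y => (J, y))) = Sum.elim (a i) (b J) := by
      funext x
      rcases x with x | x <;> rfl
    simp only at h1
    split_ifs at h1 with h3
    · rw [Formula.realize_relabel, h2] at h1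
      exact iff_of_true h1 h3
    · rw [Formula.realize_not, Formula.realize_relabel, h2] at h1
      exact iff_of_false h1 h3
  · rintro h ⟨i, J⟩
    have h2 : (Sum.elim (fun q : Fin n × Fin m => a q.1 q.2)
        (fun q : Finset (Fin n) × Fin k => b q.1 q.2)) ∘
        (Sum.map (fun x => (i, x)) (fun y => (J, y))) = Sum.elim (a i) (b J) := by
      funext x
      rcases x with x | x <;> rfl
    simp only
    split_ifs with h3
    · rw [Formula.realize_relabel, h2]
      exact (h i J).2 h3
    · rw [Formula.realize_not, Formula.realize_relabel, h2]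
      exact fun h4 => h3 ((h i J).1 h4)

theorem nipField_congr {K K' : Type} [Field K] [FirstOrder.Ring.CompatibleRing K]
    [Field K'] [FirstOrder.Ring.CompatibleRing K']
    (he : FirstOrder.Language.ring.ElementarilyEquivalent K K') (hK : NIPField K) :
    NIPField K' := by
  classical
  intro m k φ
  obtain ⟨n, hn⟩ := hK m k φ
  refine ⟨n, fun a b => ?_⟩
  by_contra hcon
  push Not at hcon
  let S : FirstOrder.Language.ring.Sentence := Formula.iExs
    ((Fin n × Fin m) ⊕ (Finset (Fin n) × Fin k)) ((nipS φ n).relabel Sum.inr)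
  have h1 : K' ⊨ S := by
    refine Formula.realize_iExs.2 ⟨Sum.elim (fun q => a q.1 q.2) (fun q => b q.1 q.2), ?_⟩
    rw [Formula.realize_relabel]
    have h2 : (Sum.elim (default : Empty → K') (Sum.elim (fun q : Fin n × Fin m => a q.1 q.2)
        (fun q : Finset (Fin n) × Fin k => b q.1 q.2))) ∘ Sum.inr =
        Sum.elim (fun q : Fin n × Fin m => a q.1 q.2)
          (fun q : Finset (Fin n) × Fin k => b q.1 q.2) := rfl
    rw [h2, realize_nipS]
    exact hcon
  have h3 : K ⊨ S := (he.realize_sentence S).2 h1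
  obtain ⟨v, hv⟩ := Formula.realize_iExs.1 h3
  rw [Formula.realize_relabel] at hv
  have h4 : (Sum.elim (default : Empty → K) v) ∘ Sum.inr =
      Sum.elim (fun q : Fin n × Fin m => v (Sum.inl (q.1, q.2)))
        (fun q : Finset (Fin n) × Fin k => v (Sum.inr (q.1, q.2))) := by
    funext x
    rcases x with x | x <;> rfl
  rw [h4, realize_nipS φ n (fun i x => v (Sum.inl (i, x))) (fun J y => v (Sum.inr (J, y)))] at hv
  obtain ⟨i, J, h5⟩ := hn (fun i x => v (Sum.inl (i, x))) (fun J y => v (Sum.inr (J, y)))
  exact h5 (hv i J)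

theorem charP_congr {K K' : Type} [Field K] [FirstOrder.Ring.CompatibleRing K]
    [Field K'] [FirstOrder.Ring.CompatibleRing K']
    (he : FirstOrder.Language.ring.ElementarilyEquivalent K K') (p : ℕ) [Fact p.Prime]
    [CharP K p] : CharP K' p := by
  have hp := (Fact.out : p.Prime)
  rw [CharP.charP_iff_prime_eq_zero hp]
  have h1 : K ⊨ (FirstOrder.Field.eqZero p) :=
    (FirstOrder.Field.realize_eqZero (K := K) p _).2 (CharP.cast_eq_zero K p)
  exact (FirstOrder.Field.realize_eqZero (K := K') p _).1 ((he.realize_sentence _).1 h1)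

/-- The theorem. -/
theorem henselian_branching (K : Type) [Field K] [FirstOrder.Ring.CompatibleRing K]
    (hK : NIPField K) (p : ℕ) [Fact p.Prime] [CharP K p]
    (K' : Type) [Field K'] [FirstOrder.Ring.CompatibleRing K']
    (he : FirstOrder.Language.ring.ElementarilyEquivalent K K')
    (O : ValuationSubring K') (ℓ : ℕ) (hℓ : ℓ.Prime) (hO : NV.Branching O ℓ) :
    (∃ O' : ValuationSubring K', O ≤ O' ∧ O' ≠ ⊤ ∧ HenselianLocalRing O' ∧ NV.Definable O') ∧
      ∃ O' : ValuationSubring K, O' ≠ ⊤ ∧ HenselianLocalRing O' ∧ NV.Definable O' := by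
  have hF := NV.fewPlaces_of K (Or.inl hK)
  obtain ⟨O', h1, h2, h3⟩ := NV.coarse_branching K' (hF.congr he) O hℓ hO
  have hK' := nipField_congr he hK
  have hc := charP_congr he p
  obtain ⟨O'', h4, h5⟩ := NV.definable_transfer he ⟨O', h2, h3⟩
  exact ⟨⟨O', h1, h2, henselian_of_definable hK' p O' h3, h3⟩,
    ⟨O'', h4, henselian_of_definable hK p O'' h5, h5⟩⟩

end Pool.Agent.K4H89.J
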