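import Pool.Agent.K4H89.J.HV

/-!
# Henselian valuation rings of NIP fields of positive characteristic
-/

set_option autoImplicit false

namespace Pool.Agent.K4H89.J

open FirstOrder FirstOrder.Language
open Pool.Agent.W882.Nip3 (NIPField)
open Pool.Agent.K4H89.NV

/-- For some degree `d ≥ 2` of a separable extension of the residue field of `O` some value between
`0` and the value of `x` (in the value group of `O`, written additively) is not divisible by `d`. -/
def Seen {K : Type} [Field K] (O : ValuationSubring K) (x : K) : Prop :=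
  ∃ (d : ℕ) (y : K), 2 ≤ d ∧ HasSepExt (IsLocalRing.ResidueField O) d ∧ y ∈ O ∧ x / y ∈ O ∧
    NotDivisible O d y

theorem le_or_le_of_le {K : Type} [Field K] {O O₁ O₂ : ValuationSubring K} (h1 : O ≤ O₁)
    (h2 : O ≤ O₂) : O₁ ≤ O₂ ∨ O₂ ≤ O₁ := by
  exact le_total (⟨O₁, h1⟩ : {S : ValuationSubring K // O ≤ S}) ⟨O₂, h2⟩

theorem henselian_of_seen (K : Type) [Field K] [FirstOrder.Ring.CompatibleRing K]
    (hK : NIPField K) (p : ℕ) [Fact p.Prime] [CharP K p]
    (K' : Type) [Field K'] [FirstOrder.Ring.CompatibleRing K']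
    (he : FirstOrder.Language.ring.ElementarilyEquivalent K K')
    (O O₁ : ValuationSubring K') (hle : O ≤ O₁)
    (h : ∀ x : K', x ≠ 0 → O₁.valuation x < 1 → Seen O x) :
    HenselianLocalRing O₁ := by
  have hF := fewPlaces_of K (Or.inl hK)
  have hK' := nipField_congr he hK
  have hc := charP_congr he p
  refine henselian_of_family fun x hx0 hx => ?_
  obtain ⟨d, y, hd, hE, hy, hxy, hnd⟩ := h x hx0 hx
  obtain ⟨O', h1, h2, -, h4⟩ := coarse_unram K' (hF.congr he) O hd y hE hnd
  refine ⟨O', (le_or_le_of_le hle h1).symm, henselian_of_definable hK' p O' h4, ?_⟩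
  have hy0 : y ≠ 0 := hnd.ne_zero (by omega)
  have hy1 : O'.valuation y < 1 := by
    refine lt_of_le_of_ne ((O'.valuation_le_one_iff y).2 (h1 hy)) fun h5 => ?_
    apply h2 1
    rw [h5, map_one, one_pow]
  have hx1 : x = y * (x / y) := by field_simp
  rw [hx1, map_mul]
  calc O'.valuation y * O'.valuation (x / y) ≤ O'.valuation y * 1 := by
        gcongr
        exact (O'.valuation_le_one_iff _).2 (h1 hxy)
    _ < 1 := by rwa [mul_one]

end Pool.Agent.K4H89.J
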