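import Pool.Agent.K4H89.J.Fin

/-!
# Coarsenings of henselian valuation rings, and comparable valuation rings
-/

set_option autoImplicit false

namespace Pool.Agent.K4H89.J

open Polynomial

section

variable {K : Type} [Field K] {O O₁ O₂ : ValuationSubring K}

theorem mem_max_iff {x : O} : x ∈ IsLocalRing.maximalIdeal O ↔ O.valuation (x : K) < 1 :=
  O.valuation_lt_one_iff x

theorem val_lt_mono (h : O ≤ O₁) {x : K} (hx : O₁.valuation x < 1) : O.valuation x < 1 := by
  by_cases h0 : x = 0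
  · rw [h0, map_zero]
    exact zero_lt_one
  · rw [val_lt_one_iff _ h0] at hx ⊢
    exact fun h1 => hx (h h1)

theorem mem_of_val_lt {x : K} (hx : O.valuation x < 1) : x ∈ O :=
  (O.valuation_le_one_iff x).1 hx.le

/-- A coarsening of a henselian valuation ring is henselian. -/
theorem henselian_coarse (hle : O ≤ O₁) (h : HenselianLocalRing O) : HenselianLocalRing O₁ := by
  refine ⟨fun f hf a₀ h0 h1 => ?_⟩
  by_cases hb0 : f.eval a₀ = 0
  · exact ⟨a₀, hb0, by rw [sub_self]; exact Ideal.zero_mem _⟩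
  obtain ⟨m, hm⟩ : ∃ m, f.natDegree = m + 1 := by
    refine ⟨f.natDegree - 1, ?_⟩
    by_contra hcon
    have h2 : f.natDegree = 0 := by omega
    rw [eq_C_of_natDegree_eq_zero h2, derivative_C, eval_zero] at h1
    exact not_isUnit_zero h1
  set g := taylor a₀ f with hg
  have hg0 : g.coeff 0 = f.eval a₀ := taylor_coeff_zero _ _
  have hg1 : g.coeff 1 = f.derivative.eval a₀ := taylor_coeff_one _ _
  have hgn : g.natDegree = m + 1 := (natDegree_taylor _ _).trans hm
  set b0 : K := ((g.coeff 0 : O₁) : K) with hb0'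
  set b1 : K := ((g.coeff 1 : O₁) : K) with hb1'
  have hb0K : b0 ≠ 0 := by
    rw [hb0', hg0]
    exact fun h2 => hb0 (Subtype.ext h2)
  have hb0v : O₁.valuation b0 < 1 := by
    rw [hb0', hg0]
    exact mem_max_iff.1 h0
  have hb1v : O₁.valuation b1 = 1 := by
    rw [hb1', hg1]
    exact (O₁.valuation_eq_one_iff _).1 h1
  have hb1K : b1 ≠ 0 := by
    intro h2
    rw [h2, map_zero] at hb1v
    exact zero_ne_one hb1v
  -- the new coefficients
  have hc : ∀ i : ℕ, O.valuation (((g.coeff (i + 2) : O₁) : K) * b0 ^ (i + 1) / b1 ^ (i + 2)) < 1 := by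
    intro i
    apply val_lt_mono hle
    rw [map_div₀, map_mul, map_pow, map_pow, hb1v, one_pow, div_one]
    calc O₁.valuation ((g.coeff (i + 2) : O₁) : K) * O₁.valuation b0 ^ (i + 1) ≤
        1 * O₁.valuation b0 ^ (i + 1) := by
          gcongr
          exact O₁.valuation_le_one _
      _ < 1 := by
          rw [one_mul]
          exact pow_lt_one₀ zero_le hb0v (by omega)
  let c : ℕ → O := fun i => ⟨_, mem_of_val_lt (hc i)⟩
  have hcmem : ∀ i, c i ∈ IsLocalRing.maximalIdeal O := fun i => mem_max_iff.2 (hc i)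
  set S : O[X] := ∑ i ∈ Finset.range m, C (c i) * X ^ (m - 1 - i) with hS
  set R : O[X] := X ^ (m + 1) + X ^ m + S with hR
  have hSdeg : S.degree < (m + 1 : ℕ) := by
    rw [hS, ← mem_degreeLT]
    refine Submodule.sum_mem _ fun i hi => mem_degreeLT.2 ?_
    rw [Finset.mem_range] at hi
    refine (degree_C_mul_X_pow_le _ _).trans_lt ?_
    exact_mod_cast (by omega : m - 1 - i < m + 1)
  have hXdeg : (X ^ m : O[X]).degree < (m + 1 : ℕ) := by
    rw [degree_X_pow]
    exact_mod_cast (by omega : m < m + 1)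
  have hRm : R.Monic := by
    rw [hR, add_assoc]
    exact (monic_X_pow (m + 1)).add_of_left (by
      rw [degree_X_pow]
      exact (degree_add_le _ _).trans_lt (max_lt hXdeg hSdeg))
  have hSev : ∀ y : O, S.eval y ∈ IsLocalRing.maximalIdeal O := by
    intro y
    rw [hS, eval_finsetSum]
    refine Ideal.sum_mem _ fun i _ => ?_
    rw [eval_mul, eval_C]
    exact Ideal.mul_mem_right _ _ (hcmem i)
  have hSdev : ∀ y : O, S.derivative.eval y ∈ IsLocalRing.maximalIdeal O := by
    intro y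
    rw [hS, derivative_sum, eval_finsetSum]
    refine Ideal.sum_mem _ fun i _ => ?_
    rw [derivative_C_mul, eval_mul, eval_C]
    exact Ideal.mul_mem_right _ _ (hcmem i)
  obtain ⟨z, hz, hz1⟩ := h.is_henselian R hRm (-1) (by
    rw [hR, eval_add, eval_add, eval_pow, eval_pow, eval_X, pow_succ]
    have h2 : (-1 : O) ^ m * -1 + (-1) ^ m + eval (-1) S = eval (-1) S := by ring
    rw [h2]
    exact hSev _) (by
    rw [hR, derivative_add, derivative_add, derivative_X_pow, derivative_X_pow, eval_add, eval_add,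
      eval_mul, eval_mul, eval_pow, eval_pow, eval_X, eval_C, eval_C, Nat.add_sub_cancel]
    have h2 : IsUnit ((-1 : O) ^ m) := (isUnit_one.neg).pow m
    have h3 : ((m + 1 : ℕ) : O) * (-1) ^ m + ((m : ℕ) : O) * (-1) ^ (m - 1) = (-1) ^ m := by
      rcases m with _ | m
      · simp
      · rw [Nat.add_sub_cancel]
        push_cast
        ring
    rw [h3]
    by_contra hcon
    have h4 : (-1 : O) ^ m ∈ IsLocalRing.maximalIdeal O := by
      have h5 := Ideal.sub_mem _ (show (-1 : O) ^ m + eval (-1) (derivative S) ∈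
        IsLocalRing.maximalIdeal O from hcon) (hSdev (-1))
      rwa [add_sub_cancel_right] at h5
    exact h4 h2)
  have hzu : IsUnit z := by
    by_contra hcon
    have h2 : z ∈ IsLocalRing.maximalIdeal O := hcon
    have h3 := Ideal.sub_mem _ hz1 h2
    have h4 : z - -1 - z = (1 : O) := by ring
    rw [h4] at h3
    exact h3 isUnit_one
  have hz0 : (z : K) ≠ 0 := by
    intro h2
    have h3 : z = 0 := Subtype.ext h2
    rw [h3] at hzu
    exact not_isUnit_zero hzu
  have hzinv : O₁.valuation ((z : K)⁻¹) ≤ 1 := by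
    obtain ⟨u, hu⟩ := hzu
    have h2 : ((u : O) : K) * (((u⁻¹ : Oˣ) : O) : K) = 1 := by
      rw [← MulMemClass.coe_mul, Units.mul_inv]
      rfl
    have h3 : (z : K)⁻¹ = (((u⁻¹ : Oˣ) : O) : K) := by
      rw [← hu]
      exact (eq_inv_of_mul_eq_one_right h2).symm
    rw [h3, ValuationSubring.valuation_le_one_iff]
    exact hle (((u⁻¹ : Oˣ) : O)).2
  set s : K := b0 / b1 * (z : K)⁻¹ with hs
  have hsv : O₁.valuation s < 1 := by
    rw [hs, map_mul, map_div₀, hb1v, div_one]
    calc O₁.valuation b0 * O₁.valuation (z : K)⁻¹ ≤ O₁.valuation b0 * 1 := by gcongr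
      _ < 1 := by rwa [mul_one]
  let s' : O₁ := ⟨s, mem_of_val_lt hsv⟩
  refine ⟨a₀ + s', ?_, ?_⟩
  · rw [IsRoot.def]
    have e1 : f.eval (a₀ + s') = g.eval s' := by
      rw [hg, taylor_eval, add_comm]
    rw [e1]
    apply Subtype.ext
    have e2 : ((g.eval s' : O₁) : K) = ∑ i ∈ Finset.range (m + 1 + 1), ((g.coeff i : O₁) : K) * s ^ i := by
      rw [eval_eq_sum_range, hgn]
      push_cast
      rfl
    show ((g.eval s' : O₁) : K) = 0
    rw [e2, Finset.sum_range_succ', Finset.sum_range_succ']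
    have e7 : (z : K) ^ (m + 1) + (z : K) ^ m +
        ∑ i ∈ Finset.range m, (c i : K) * (z : K) ^ (m - 1 - i) = 0 := by
      have e8 := congrArg (fun w : O => (w : K)) (show R.eval z = 0 from hz)
      rw [hR, hS, eval_add, eval_add, eval_pow, eval_pow, eval_X, eval_finsetSum] at e8
      simp only [eval_mul, eval_C, eval_pow, eval_X] at e8
      push_cast at e8
      exact e8
    have e3 : ∀ i ∈ Finset.range m, ((g.coeff (i + 1 + 1) : O₁) : K) * s ^ (i + 1 + 1) =
        b0 / (z : K) ^ (m + 1) * ((c i : K) * (z : K) ^ (m - 1 - i)) := by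
      intro i hi
      rw [Finset.mem_range] at hi
      have e4 : ((c i : O) : K) = ((g.coeff (i + 2) : O₁) : K) * b0 ^ (i + 1) / b1 ^ (i + 2) := rfl
      have e5 : (z : K) ^ (m + 1) = (z : K) ^ (m - 1 - i) * (z : K) ^ (i + 2) := by
        rw [← pow_add]
        congr 1
        omega
      have e6 : (z : K) ^ (m - 1 - i) ≠ 0 := pow_ne_zero _ hz0
      have e8 : (z : K) ^ (i + 2) ≠ 0 := pow_ne_zero _ hz0
      have e9 : b1 ^ (i + 2) ≠ 0 := pow_ne_zero _ hb1K
      rw [e4, hs, e5, mul_pow, div_pow, inv_pow, pow_succ' b0 (i + 1)]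
      show _ = b0 / ((z : K) ^ (m - 1 - i) * (z : K) ^ (i + 2)) *
        (((g.coeff (i + 1 + 1) : O₁) : K) * b0 ^ (i + 1) / b1 ^ (i + 2) * (z : K) ^ (m - 1 - i))
      generalize (z : K) ^ (m - 1 - i) = A at *
      generalize ((g.coeff (i + 1 + 1) : O₁) : K) = G at *
      show G * (b0 * b0 ^ (i + 1) / b1 ^ (i + 2) * ((z : K) ^ (i + 2))⁻¹) = _
      generalize (z : K) ^ (i + 2) = B at *
      generalize b1 ^ (i + 2) = D at *
      generalize b0 ^ (i + 1) = E at *
      field_simp
    rw [Finset.sum_congr rfl e3, ← Finset.mul_sum]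
    have e9 : ∑ i ∈ Finset.range m, (c i : K) * (z : K) ^ (m - 1 - i) =
        -((z : K) ^ (m + 1) + (z : K) ^ m) := by linear_combination e7
    rw [e9, zero_add, pow_one, pow_zero, mul_one, hs]
    have e10 : (z : K) ^ (m + 1) ≠ 0 := pow_ne_zero _ hz0
    rw [pow_succ]
    have e11 : (z : K) ^ m ≠ 0 := pow_ne_zero _ hz0
    field_simp
    ring
  · rw [mem_max_iff]
    have : ((a₀ + s' - a₀ : O₁) : K) = s := by
      rw [add_sub_cancel_left]
    rw [this]
    exact hsv

/-- A valuation ring all of whose nonunits are nonunits of comparable henselian valuation rings is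
henselian. -/
theorem henselian_of_family
    (h : ∀ x : K, x ≠ 0 → O₁.valuation x < 1 → ∃ O' : ValuationSubring K,
      (O' ≤ O₁ ∨ O₁ ≤ O') ∧ HenselianLocalRing O' ∧ O'.valuation x < 1) :
    HenselianLocalRing O₁ := by
  refine ⟨fun f hf a₀ h0 h1 => ?_⟩
  by_cases hb0 : f.eval a₀ = 0
  · exact ⟨a₀, hb0, by rw [sub_self]; exact Ideal.zero_mem _⟩
  obtain ⟨O', hO', hh, hx⟩ := h ((f.eval a₀ : O₁) : K) (fun h2 => hb0 (Subtype.ext h2))
    (mem_max_iff.1 h0)
  rcases hO' with hO' | hO'
  · exact (henselian_coarse hO' hh).is_henselian f hf a₀ h0 h1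
  · set i := ValuationSubring.inclusion O₁ O' hO' with hi
    obtain ⟨a, ha, ha1⟩ := hh.is_henselian (f.map i) (hf.map i) (i a₀) (by
      rw [eval_map, eval₂_hom, mem_max_iff]
      exact hx) (by
      rw [derivative_map, eval_map, eval₂_hom]
      exact h1.map i)
    have h2 : O₁.valuation ((a : K) - a₀) < 1 := by
      apply val_lt_mono hO'
      exact mem_max_iff.1 ha1
    have h3 : (a : K) ∈ O₁ := by
      have : (a : K) = ((a : K) - a₀) + a₀ := by ring
      rw [this]
      exact O₁.add_mem _ _ (mem_of_val_lt h2) a₀.2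
    refine ⟨⟨a, h3⟩, ?_, mem_max_iff.2 h2⟩
    rw [IsRoot.def]
    have h4 : i (f.eval ⟨a, h3⟩) = 0 := by
      rw [IsRoot.def, eval_map] at ha
      rw [← eval₂_hom]
      exact ha
    have h5 : ((i (f.eval ⟨a, h3⟩) : O') : K) = 0 := by rw [h4]; rfl
    exact Subtype.ext h5

/-- Weak approximation for two incomparable valuation rings. -/
theorem approx {u : K} (hu0 : u ≠ 0) (h1 : O₁.valuation u < 1) (h2 : O₂.valuation u⁻¹ < 1)
    {e c : K} (he : e ∈ O₁) (he' : e ∈ O₂) (hc : c ∈ O₂) :
    ∃ y : K, y ∈ O₁ ∧ y ∈ O₂ ∧ O₁.valuation (y - e) < 1 ∧ O₂.valuation (y - c) < 1 := by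
  -- first an element of the intersection near `c`
  obtain ⟨c', hc1, hc2⟩ : ∃ c' : K, c' ∈ O₁ ∧ O₂.valuation (c' - c) < 1 := by
    by_cases hcO : c ∈ O₁
    · exact ⟨c, hcO, by rw [sub_self, map_zero]; exact zero_lt_one⟩
    · have hv2 : O₂.valuation (u⁻¹ * c ^ 2) < 1 := by
        rw [map_mul, map_pow]
        have h3 : O₂.valuation c ≤ 1 := (O₂.valuation_le_one_iff c).2 hc
        calc O₂.valuation u⁻¹ * O₂.valuation c ^ 2 ≤ O₂.valuation u⁻¹ * 1 := by
              gcongr
              exact pow_le_one₀ zero_le h3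
          _ < 1 := by rwa [mul_one]
      have hw2 : O₂.valuation (1 + u⁻¹ * c ^ 2) = 1 := by
        rw [Valuation.map_add_eq_of_lt_left _ (by rwa [map_one]), map_one]
      have hne : 1 + u⁻¹ * c ^ 2 ≠ 0 := by
        intro h0
        rw [h0, map_zero] at hw2
        exact zero_ne_one hw2
      refine ⟨c / (1 + u⁻¹ * c ^ 2), ?_, ?_⟩
      · have hc1 : 1 < O₁.valuation c := by
          rw [← not_le, ValuationSubring.valuation_le_one_iff]
          exact hcO
        have hu1 : 1 < O₁.valuation u⁻¹ := by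
          rw [map_inv₀]
          exact (one_lt_inv₀ ((Valuation.pos_iff _).2 hu0)).2 h1
        have hv1 : 1 < O₁.valuation (u⁻¹ * c ^ 2) := by
          rw [map_mul, map_pow]
          exact one_lt_mul_of_lt_of_le hu1 (one_le_pow₀ hc1.le)
        have hw1 : O₁.valuation (1 + u⁻¹ * c ^ 2) = O₁.valuation (u⁻¹ * c ^ 2) := by
          rw [Valuation.map_add_eq_of_lt_right]
          rwa [map_one]
        apply mem_of_val_lt
        rw [map_div₀, hw1, div_lt_one₀ (zero_lt_one.trans hv1), map_mul, map_pow, pow_two,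
          ← mul_assoc]
        calc O₁.valuation c = 1 * O₁.valuation c := (one_mul _).symm
          _ < O₁.valuation u⁻¹ * O₁.valuation c * O₁.valuation c := by
            refine mul_lt_mul_of_pos_right ?_ (zero_lt_one.trans hc1)
            exact one_lt_mul_of_lt_of_le hu1 hc1.le
      · have h3 : c / (1 + u⁻¹ * c ^ 2) - c = -(c * (u⁻¹ * c ^ 2)) / (1 + u⁻¹ * c ^ 2) := by
          rw [div_sub' hne]
          congr 1
          ring
        rw [h3, map_div₀, hw2, div_one, Valuation.map_neg, map_mul]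
        have h3 : O₂.valuation c ≤ 1 := (O₂.valuation_le_one_iff c).2 hc
        calc O₂.valuation c * O₂.valuation (u⁻¹ * c ^ 2) ≤ 1 * O₂.valuation (u⁻¹ * c ^ 2) := by
              gcongr
          _ < 1 := by rwa [one_mul]
  have hc3 : c' ∈ O₂ := by
    have : c' = (c' - c) + c := by ring
    rw [this]
    exact O₂.add_mem _ _ (mem_of_val_lt hc2) hc
  -- the idempotent
  have hw1 : O₁.valuation (1 + u) = 1 := by
    rw [Valuation.map_add_eq_of_lt_left _ (by rwa [map_one]), map_one]
  have hne : 1 + u ≠ 0 := by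
    intro h0
    rw [h0, map_zero] at hw1
    exact zero_ne_one hw1
  have hx1 : O₁.valuation (u / (1 + u)) < 1 := by rwa [map_div₀, hw1, div_one]
  have hu2 : 1 < O₂.valuation u := by
    have h3 : 0 < O₂.valuation u := (Valuation.pos_iff _).2 hu0
    rw [map_inv₀] at h2
    exact (inv_lt_one₀ h3).1 h2
  have hw2 : O₂.valuation (1 + u) = O₂.valuation u := by
    rw [Valuation.map_add_eq_of_lt_right]
    rwa [map_one]
  have hx2 : O₂.valuation (1 - u / (1 + u)) < 1 := by
    have h3 : 1 - u / (1 + u) = 1 / (1 + u) := by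
      field_simp
      ring
    rw [h3, map_div₀, map_one, hw2, one_div, ← map_inv₀]
    exact h2
  set x := u / (1 + u) with hx
  have hxO1 : x ∈ O₁ := mem_of_val_lt hx1
  have hxO2 : x ∈ O₂ := by
    have : x = 1 - (1 - x) := by ring
    rw [this]
    exact O₂.sub_mem O₂.one_mem (mem_of_val_lt hx2)
  have hxO2' : 1 - x ∈ O₂ := mem_of_val_lt hx2
  have hxO1' : 1 - x ∈ O₁ := O₁.sub_mem O₁.one_mem hxO1
  refine ⟨c' * x + e * (1 - x), ?_, ?_, ?_, ?_⟩
  · exact O₁.add_mem _ _ (O₁.mul_mem _ _ hc1 hxO1) (O₁.mul_mem _ _ he hxO1')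
  · exact O₂.add_mem _ _ (O₂.mul_mem _ _ hc3 hxO2) (O₂.mul_mem _ _ he' hxO2')
  · have h3 : c' * x + e * (1 - x) - e = (c' - e) * x := by ring
    rw [h3, map_mul]
    have h4 : O₁.valuation (c' - e) ≤ 1 := (O₁.valuation_le_one_iff _).2 (O₁.sub_mem hc1 he)
    calc O₁.valuation (c' - e) * O₁.valuation x ≤ 1 * O₁.valuation x := by gcongr
      _ < 1 := by rwa [one_mul]
  · have h3 : c' * x + e * (1 - x) - c = (c' - c) + (e - c') * (1 - x) := by ring
    rw [h3]
    refine O₂.valuation.map_add_lt hc2 ?_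
    rw [map_mul]
    have h4 : O₂.valuation (e - c') ≤ 1 := (O₂.valuation_le_one_iff _).2 (O₂.sub_mem he' hc3)
    calc O₂.valuation (e - c') * O₂.valuation (1 - x) ≤ 1 * O₂.valuation (1 - x) := by gcongr
      _ < 1 := by rwa [one_mul]

/-- A henselian valuation ring is comparable with all valuation rings whose residue fields are not
algebraically closed. -/
theorem comparable_of_henselian (h : HenselianLocalRing O₁)
    (hac : ¬ IsAlgClosed (IsLocalRing.ResidueField O₂)) : O₁ ≤ O₂ ∨ O₂ ≤ O₁ := by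
  classical
  by_contra hcon
  push Not at hcon
  obtain ⟨u, hu0, hu1, hu2⟩ : ∃ u : K, u ≠ 0 ∧ O₁.valuation u < 1 ∧ O₂.valuation u⁻¹ < 1 := by
    obtain ⟨a, ha1, ha2⟩ := Set.not_subset.1 hcon.1
    obtain ⟨b, hb2, hb1⟩ := Set.not_subset.1 hcon.2
    have ha0 : a ≠ 0 := by
      rintro rfl
      exact ha2 O₂.zero_mem
    have hb0 : b ≠ 0 := by
      rintro rfl
      exact hb1 O₁.zero_mem
    have hva1 : O₁.valuation a ≤ 1 := (O₁.valuation_le_one_iff _).2 ha1
    have hvb2 : O₂.valuation b ≤ 1 := (O₂.valuation_le_one_iff _).2 hb2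
    have hva2 : 1 < O₂.valuation a := by
      rw [← not_le, ValuationSubring.valuation_le_one_iff]
      exact ha2
    have hvb1 : 1 < O₁.valuation b := by
      rw [← not_le, ValuationSubring.valuation_le_one_iff]
      exact hb1
    refine ⟨a / b, div_ne_zero ha0 hb0, ?_, ?_⟩
    · rw [map_div₀, div_lt_one₀ (zero_lt_one.trans hvb1)]
      exact hva1.trans_lt hvb1
    · rw [inv_div, map_div₀, div_lt_one₀ (zero_lt_one.trans hva2)]
      exact hvb2.trans_lt hva2
  obtain ⟨q, hq, hqi, hqr⟩ : ∃ q : (IsLocalRing.ResidueField O₂)[X], q.Monic ∧ Irreducible q ∧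
      ∀ x, q.eval x ≠ 0 := by
    by_contra hcon2
    push Not at hcon2
    exact hac (IsAlgClosed.of_exists_root _ fun q h1 h2 => hcon2 q h1 h2)
  have hn : 2 ≤ q.natDegree := by
    by_contra hlt
    have h1 : q.natDegree = 1 := by
      have := hqi.natDegree_pos
      omega
    obtain ⟨x, hx⟩ := exists_root_of_degree_eq_one (by
      rw [degree_eq_natDegree hq.ne_zero, h1]
      rfl : q.degree = 1)
    exact hqr x hx
  obtain ⟨F, hFq, hFd, hFm⟩ := lifts_and_natDegree_eq_and_monic (f := IsLocalRing.residue O₂)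
    (p := q) (by
      rw [lifts_iff_coeffs_subset_range]
      intro x _
      exact IsLocalRing.residue_surjective x) hq
  -- the coefficients
  have happ : ∀ i : ℕ, ∃ y : K, y ∈ O₁ ∧ y ∈ O₂ ∧
      O₁.valuation (y - (if i = 1 then 1 else 0)) < 1 ∧ O₂.valuation (y - (F.coeff i : O₂)) < 1 := by
    intro i
    refine approx hu0 hu1 hu2 ?_ ?_ (F.coeff i).2
    · split_ifs
      · exact O₁.one_mem
      · exact O₁.zero_mem
    · split_ifs
      · exact O₂.one_mem
      · exact O₂.zero_mem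
  choose η hη1 hη2 hη3 hη4 using happ
  set n := q.natDegree with hnq
  set G₁ : O₁[X] := X ^ n + ∑ i ∈ Finset.range n, C ⟨η i, hη1 i⟩ * X ^ i with hG₁
  set G₂ : O₂[X] := X ^ n + ∑ i ∈ Finset.range n, C ⟨η i, hη2 i⟩ * X ^ i with hG₂
  have hd1 : (∑ i ∈ Finset.range n, C (⟨η i, hη1 i⟩ : O₁) * X ^ i).degree < (n : WithBot ℕ) := by
    rw [← mem_degreeLT]
    refine Submodule.sum_mem _ fun i hi => mem_degreeLT.2 ?_
    rw [Finset.mem_range] at hi
    refine (degree_C_mul_X_pow_le _ _).trans_lt ?_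
    exact_mod_cast hi
  have hd2 : (∑ i ∈ Finset.range n, C (⟨η i, hη2 i⟩ : O₂) * X ^ i).degree < (n : WithBot ℕ) := by
    rw [← mem_degreeLT]
    refine Submodule.sum_mem _ fun i hi => mem_degreeLT.2 ?_
    rw [Finset.mem_range] at hi
    refine (degree_C_mul_X_pow_le _ _).trans_lt ?_
    exact_mod_cast hi
  have hG₁m : G₁.Monic := (monic_X_pow n).add_of_left (by rwa [degree_X_pow])
  have hG₂m : G₂.Monic := (monic_X_pow n).add_of_left (by rwa [degree_X_pow])
  have hco1 : ∀ i < n, G₁.coeff i = ⟨η i, hη1 i⟩ := by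
    intro i hi
    rw [hG₁, coeff_add, coeff_X_pow, if_neg (by omega), zero_add, finsetSum_coeff]
    simp only [coeff_C_mul, coeff_X_pow, mul_ite, mul_one, mul_zero]
    rw [Finset.sum_ite_eq, if_pos (Finset.mem_range.2 hi)]
  obtain ⟨a, ha, ha1⟩ := h.is_henselian G₁ hG₁m 0 (by
    rw [← coeff_zero_eq_eval_zero, hco1 0 (by omega), mem_max_iff]
    simpa using hη3 0) (by
    rw [← coeff_zero_eq_eval_zero, coeff_derivative, hco1 1 (by omega)]
    by_contra hcon3
    have h1 : O₁.valuation (η 1) < 1 := by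
      have h2 : (⟨η 1, hη1 1⟩ : O₁) * ((0 : ℕ) + 1) ∈ IsLocalRing.maximalIdeal O₁ := hcon3
      rw [mem_max_iff] at h2
      simpa using h2
    have h2 := hη3 1
    simp only [if_true] at h2
    have h3 : O₁.valuation (1 : K) < 1 := by
      have h4 : (1 : K) = η 1 - (η 1 - 1) := by ring
      rw [h4]
      exact O₁.valuation.map_sub_lt h1 h2
    rw [map_one] at h3
    exact lt_irrefl _ h3)
  -- the root in `K`
  have hroot : (G₂.map (algebraMap O₂ K)).eval (a : K) = 0 := by
    have h1 := congrArg (fun w : O₁ => (w : K)) (show G₁.eval a = 0 from ha)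
    rw [hG₁, eval_add, eval_pow, eval_X, eval_finsetSum] at h1
    simp only [eval_mul, eval_C, eval_pow, eval_X] at h1
    push_cast at h1
    rw [hG₂, Polynomial.map_add, Polynomial.map_pow, map_X, Polynomial.map_sum, eval_add, eval_pow,
      eval_X, eval_finsetSum]
    simp only [Polynomial.map_mul, map_C, Polynomial.map_pow, map_X, eval_mul, eval_C, eval_pow,
      eval_X]
    exact h1
  have hint : IsIntegral O₂ (a : K) := ⟨G₂, hG₂m, by rwa [eval_map] at hroot⟩
  obtain ⟨a', ha'⟩ := (IsIntegrallyClosed.isIntegral_iff (R := O₂)).1 hint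
  have hroot2 : G₂.eval a' = 0 := by
    rw [← ha', eval_map, eval₂_hom] at hroot
    exact (FaithfulSMul.algebraMap_injective O₂ K) (by rw [hroot, map_zero])
  have hG₂q : G₂.map (IsLocalRing.residue O₂) = q := by
    rw [← hFq]
    have hF : F = X ^ n + ∑ i ∈ Finset.range n, C (F.coeff i) * X ^ i := by
      have := hFm.as_sum
      rwa [hFd] at this
    rw [hF, hG₂]
    simp only [Polynomial.map_add, Polynomial.map_pow, map_X, Polynomial.map_sum,
      Polynomial.map_mul, map_C]
    congr 1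
    refine Finset.sum_congr rfl fun i hi => ?_
    congr 2
    rw [← sub_eq_zero, ← map_sub, IsLocalRing.residue_eq_zero_iff, mem_max_iff]
    have h6 : (X ^ n + ∑ i ∈ Finset.range n, C (F.coeff i) * X ^ i).coeff i = F.coeff i := by
      rw [← hF]
    exact hη4 i
  apply hqr (IsLocalRing.residue O₂ a')
  rw [← hG₂q, eval_map, eval₂_hom, hroot2, map_zero]

end

end Pool.Agent.K4H89.J
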