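import Pool.Agent.K4H89.J.Core

/-!
# A valuation ring that is not henselian splits a polynomial
-/

set_option autoImplicit false

namespace Pool.Agent.K4H89.J

open Polynomial

theorem val_lt_one_iff {F : Type*} [Field F] (W : ValuationSubring F) {x : F} (hx : x ≠ 0) :
    W.valuation x < 1 ↔ x⁻¹ ∉ W := by
  rw [← ValuationSubring.valuation_le_one_iff, map_inv₀, not_le]
  have h0 : 0 < W.valuation x := (Valuation.pos_iff _).2 hx
  rw [one_lt_inv₀ h0]

section

variable {K Ω : Type} [Field K] [Field Ω] [Algebra K Ω] {O : ValuationSubring K}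
  {W : ValuationSubring Ω}

theorem lt_one_iff (hW : ∀ x : K, algebraMap K Ω x ∈ W ↔ x ∈ O) (x : K) :
    W.valuation (algebraMap K Ω x) < 1 ↔ O.valuation x < 1 := by
  by_cases hx : x = 0
  · simp [hx]
  · rw [val_lt_one_iff W (by simpa using hx), val_lt_one_iff O hx, ← map_inv₀, hW]

/-- the inclusion of valuation rings -/
def inc (hW : ∀ x : K, algebraMap K Ω x ∈ W ↔ x ∈ O) : O →+* W :=
  ((algebraMap K Ω).comp O.subtype).codRestrict W.toSubring (fun x => (hW x).2 x.2)

theorem coe_inc (hW : ∀ x : K, algebraMap K Ω x ∈ W ↔ x ∈ O) (x : O) :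
    ((inc hW x : W) : Ω) = algebraMap K Ω (x : K) := rfl

theorem val_sub_le (f : W[X]) (x y : W) :
    W.valuation ((f.eval x : W) - (f.eval y : W) : Ω) ≤ W.valuation ((x : Ω) - y) := by
  obtain ⟨c, hc⟩ := sub_dvd_eval_sub x y f
  have h1 : ((f.eval x : W) - (f.eval y : W) : Ω) = ((x : Ω) - y) * (c : Ω) := by
    have := congrArg (fun w : W => (w : Ω)) hc
    simpa using this
  rw [h1, map_mul]
  calc W.valuation ((x : Ω) - y) * W.valuation (c : Ω) ≤ W.valuation ((x : Ω) - y) * 1 := by
        gcongr
        exact W.valuation_le_one c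
    _ = _ := mul_one _

end

section

variable {K : Type} [Field K] {O : ValuationSubring K} {W : ValuationSubring (AlgebraicClosure K)}

open IntermediateField in
theorem exists_split (hW : ∀ x : K, algebraMap K (AlgebraicClosure K) x ∈ W ↔ x ∈ O)
    (h : ¬ HenselianLocalRing O) :
    ∃ (L : IntermediateField K (AlgebraicClosure K)) (_ : FiniteDimensional K L) (y₀ : L)
      (σ₁ σ₂ : L →ₐ[K] AlgebraicClosure K),
      (∀ σ : L →ₐ[K] AlgebraicClosure K,
        W.valuation (σ y₀) < 1 ∨ W.valuation (σ y₀ - 1) < 1) ∧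
      W.valuation (σ₁ y₀ - 1) < 1 ∧ W.valuation (σ₂ y₀) < 1 := by
  classical
  obtain ⟨f, hf, a₀, hfa, hfu, hno⟩ : ∃ f : O[X], f.Monic ∧ ∃ a₀ : O,
      f.eval a₀ ∈ IsLocalRing.maximalIdeal O ∧ IsUnit (f.derivative.eval a₀) ∧
      ∀ a : O, f.IsRoot a → ¬ (a - a₀ ∈ IsLocalRing.maximalIdeal O) := by
    by_contra hcon
    push Not at hcon
    exact h ⟨fun f hf a₀ h1 h2 => hcon f hf a₀ h1 h2⟩
  set i := inc hW with hi
  -- the polynomials over `W`
  set F : W[X] := f.map i with hF
  have hFm : F.Monic := hf.map i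
  set a : W := i a₀ with ha
  have hFa : W.valuation ((F.eval a : W) : AlgebraicClosure K) < 1 := by
    rw [hF, ha, eval_map, eval₂_hom, coe_inc, lt_one_iff hW]
    exact (O.valuation_lt_one_iff _).1 hfa
  -- the cofactor
  obtain ⟨h', hh'⟩ : ∃ h' : O[X], f = (X - C a₀) * h' + C (f.eval a₀) := by
    refine ⟨f /ₘ (X - C a₀), ?_⟩
    have h1 := modByMonic_add_div f (X - C a₀)
    rw [modByMonic_X_sub_C_eq_C_eval] at h1
    rw [add_comm]
    exact h1.symm
  set H : W[X] := h'.map i with hH
  have hFH : F = (X - C a) * H + C (F.eval a) := by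
    have := congrArg (Polynomial.map i) hh'
    rw [Polynomial.map_add, Polynomial.map_mul, Polynomial.map_sub, map_X, map_C, map_C] at this
    rw [hF, this, hH]
    congr 1
    rw [← this, eval_map, eval₂_hom]
  have hHa : H.eval a = F.derivative.eval a := by
    conv_rhs => rw [hFH]
    simp
  have hu : IsUnit (F.derivative.eval a) := by
    rw [hF, ha, derivative_map, eval_map, eval₂_hom]
    exact hfu.map i
  have hHu : W.valuation ((H.eval a : W) : AlgebraicClosure K) = 1 := by
    rw [hHa]
    exact (W.valuation_eq_one_iff _).1 hu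
  have hHne : ((H.eval a : W) : AlgebraicClosure K) ≠ 0 := by
    intro h0
    rw [h0, map_zero] at hHu
    exact zero_ne_one hHu
  -- roots
  have hroot : ∀ r : W, F.eval r = 0 → (W.valuation ((r : AlgebraicClosure K) - a) < 1 ∧
      W.valuation (((H.eval r : W) : AlgebraicClosure K) / ((H.eval a : W) : AlgebraicClosure K) - 1) < 1)
      ∨ (¬ W.valuation ((r : AlgebraicClosure K) - a) < 1 ∧
      W.valuation (((H.eval r : W) : AlgebraicClosure K) / ((H.eval a : W) : AlgebraicClosure K)) < 1) := by
    intro r hr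
    by_cases h1 : W.valuation ((r : AlgebraicClosure K) - a) < 1
    · left
      refine ⟨h1, ?_⟩
      have h2 : ((H.eval r : W) : AlgebraicClosure K) / ((H.eval a : W) : AlgebraicClosure K) - 1 =
          (((H.eval r : W) : AlgebraicClosure K) - ((H.eval a : W) : AlgebraicClosure K)) /
            ((H.eval a : W) : AlgebraicClosure K) := by
        field_simp
      rw [h2, map_div₀, hHu, div_one]
      exact (val_sub_le H r a).trans_lt h1
    · right
      refine ⟨h1, ?_⟩
      rw [map_div₀, hHu, div_one]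
      have h2 : ((r : AlgebraicClosure K) - a) * ((H.eval r : W) : AlgebraicClosure K) =
          - ((F.eval a : W) : AlgebraicClosure K) := by
        have h3 := congrArg (Polynomial.eval r) hFH
        rw [hr, eval_add, eval_mul, eval_sub, eval_X, eval_C, eval_C] at h3
        have h4 := congrArg (fun w : W => (w : AlgebraicClosure K)) h3
        simp only [ZeroMemClass.coe_zero, AddMemClass.coe_add, MulMemClass.coe_mul,
          AddSubgroupClass.coe_sub] at h4
        linear_combination -h4
      have h3 : W.valuation ((r : AlgebraicClosure K) - a) = 1 := by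
        apply le_antisymm
        · exact W.valuation_le_one (r - a)
        · exact not_lt.1 h1
      have h4 := congrArg W.valuation h2
      rw [map_mul, h3, one_mul, Valuation.map_neg] at h4
      rw [h4]
      exact hFa
  -- a root near `a`
  have hspl : (F.map (algebraMap W (AlgebraicClosure K))).Splits := IsAlgClosed.splits _
  have hFΩ : (F.map (algebraMap W (AlgebraicClosure K))).Monic := hFm.map _
  obtain ⟨r₁, hr₁, hr₁a⟩ : ∃ r₁ ∈ (F.map (algebraMap W (AlgebraicClosure K))).roots,
      W.valuation (r₁ - (a : AlgebraicClosure K)) < 1 := by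
    by_contra hcon
    push Not at hcon
    have h1 : (F.map (algebraMap W (AlgebraicClosure K))).eval (a : AlgebraicClosure K) =
        ((F.map (algebraMap W (AlgebraicClosure K))).roots.map
          (fun r => (a : AlgebraicClosure K) - r)).prod := by
      conv_lhs => rw [hspl.eq_prod_roots_of_monic hFΩ]
      rw [eval_multiset_prod, Multiset.map_map]
      congr 1
      apply Multiset.map_congr rfl
      intro r _
      simp
    have h2 : (F.map (algebraMap W (AlgebraicClosure K))).eval (a : AlgebraicClosure K) =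
        ((F.eval a : W) : AlgebraicClosure K) := by
      have : (a : AlgebraicClosure K) = algebraMap W (AlgebraicClosure K) a := rfl
      rw [this, eval_map, eval₂_hom]
      rfl
    rw [h2] at h1
    rw [h1, map_multiset_prod, Multiset.map_map] at hFa
    refine absurd hFa (not_lt.2 ?_)
    have h3 : ∀ s : Multiset (AlgebraicClosure K),
        (∀ x ∈ s, 1 ≤ W.valuation (x - (a : AlgebraicClosure K))) →
        1 ≤ (s.map (⇑W.valuation ∘ fun r => (a : AlgebraicClosure K) - r)).prod := by
      intro s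
      induction s using Multiset.induction_on with
      | empty => intro _; simp
      | cons x s ih =>
        intro hs
        rw [Multiset.map_cons, Multiset.prod_cons]
        have h4 := ih fun y hy => hs y (Multiset.mem_cons_of_mem hy)
        have h5 := hs x (Multiset.mem_cons_self x s)
        have h6 : (⇑W.valuation ∘ fun r => (a : AlgebraicClosure K) - r) x =
            W.valuation (x - (a : AlgebraicClosure K)) := by
          rw [Function.comp_apply, Valuation.map_sub_swap]
        rw [h6]
        exact one_le_mul h5 h4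
    exact h3 _ hcon
  -- roots are in `W`
  have hrootW : ∀ r : AlgebraicClosure K, (F.map (algebraMap W (AlgebraicClosure K))).eval r = 0 →
      ∃ r' : W, (r' : AlgebraicClosure K) = r ∧ F.eval r' = 0 := by
    intro r hr
    have hint : IsIntegral W r := ⟨F, hFm, by rwa [eval_map] at hr⟩
    obtain ⟨r', rfl⟩ := (IsIntegrallyClosed.isIntegral_iff (R := W)).1 hint
    refine ⟨r', rfl, ?_⟩
    rw [eval_map, eval₂_hom] at hr
    exact (FaithfulSMul.algebraMap_injective W (AlgebraicClosure K)) (by rw [hr, map_zero])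
  rw [mem_roots hFΩ.ne_zero, IsRoot.def] at hr₁
  have hFK : F.map (algebraMap W (AlgebraicClosure K)) =
      (f.map (algebraMap O K)).map (algebraMap K (AlgebraicClosure K)) := by
    rw [hF, Polynomial.map_map, Polynomial.map_map]
    rfl
  -- the minimal polynomial
  have hr₁int : IsIntegral K r₁ := Algebra.IsIntegral.isIntegral r₁
  have hdvd : minpoly K r₁ ∣ f.map (algebraMap O K) := by
    apply minpoly.dvd
    rw [aeval_def, ← eval_map, ← hFK]
    exact hr₁
  have hr₁K : r₁ ∉ (algebraMap K (AlgebraicClosure K)).range := by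
    rintro ⟨b, rfl⟩
    obtain ⟨b', hb', _⟩ := hrootW _ hr₁
    have hbO : b ∈ O := (hW b).1 (hb' ▸ b'.2)
    refine hno ⟨b, hbO⟩ ?_ ?_
    · rw [IsRoot.def]
      have h1 : (f.map (algebraMap O K)).eval b = 0 := by
        rw [hFK, eval_map, eval₂_hom] at hr₁
        exact (algebraMap K (AlgebraicClosure K)).injective (by rw [hr₁, map_zero])
      have h2 : (algebraMap O K) (f.eval ⟨b, hbO⟩) = 0 := by
        rw [← h1, eval_map, ← eval₂_hom]
        rfl
      exact (FaithfulSMul.algebraMap_injective O K) (by rw [h2, map_zero])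
    · rw [O.valuation_lt_one_iff, ← lt_one_iff hW]
      have : ((⟨b, hbO⟩ - a₀ : O) : K) = b - a₀ := rfl
      rw [this, map_sub]
      exact hr₁a
  have hdeg : 2 ≤ (minpoly K r₁).natDegree :=
    (minpoly.two_le_natDegree_iff hr₁int).2 hr₁K
  -- another root
  obtain ⟨g₁, hg₁⟩ : (X - C r₁) ∣ (minpoly K r₁).map (algebraMap K (AlgebraicClosure K)) := by
    rw [dvd_iff_isRoot, IsRoot.def, eval_map, ← aeval_def]
    exact minpoly.aeval K r₁
  have hmm : ((minpoly K r₁).map (algebraMap K (AlgebraicClosure K))).Monic :=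
    (minpoly.monic hr₁int).map _
  have hg₁m : g₁.Monic := (monic_X_sub_C r₁).of_mul_monic_left (hg₁ ▸ hmm)
  have hg₁d : g₁.degree ≠ 0 := by
    intro h0
    have h1 := congrArg Polynomial.natDegree hg₁
    have h2 : g₁.natDegree = 0 := natDegree_eq_zero_iff_degree_le_zero.2 h0.le
    rw [natDegree_map, (monic_X_sub_C r₁).natDegree_mul hg₁m, natDegree_X_sub_C, h2] at h1
    omega
  obtain ⟨r₂, hr₂⟩ := IsAlgClosed.exists_root g₁ hg₁d
  obtain ⟨g₂, hg₂⟩ := (dvd_iff_isRoot.2 hr₂ : (X - C r₂) ∣ g₁)
  obtain ⟨q₀, hq₀⟩ : (minpoly K r₁).map (algebraMap K (AlgebraicClosure K)) ∣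
      F.map (algebraMap W (AlgebraicClosure K)) := by
    rw [hFK]
    exact Polynomial.map_dvd _ hdvd
  have hFq : F.map (algebraMap W (AlgebraicClosure K)) = (X - C r₁) * (X - C r₂) * (g₂ * q₀) := by
    rw [hq₀, hg₁, hg₂]
    ring
  have hqm : (g₂ * q₀).Monic :=
    ((monic_X_sub_C r₁).mul (monic_X_sub_C r₂)).of_mul_monic_left (hFq ▸ hFΩ)
  obtain ⟨q, hq⟩ := IsIntegrallyClosed.eq_map_mul_C_of_dvd (AlgebraicClosure K) hFm
    (g := g₂ * q₀) ⟨(X - C r₁) * (X - C r₂), by rw [hFq]; ring⟩
  rw [hqm.leadingCoeff, C_1, mul_one] at hq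
  have hr₂Ω : (F.map (algebraMap W (AlgebraicClosure K))).eval r₂ = 0 := by
    rw [hFq]
    simp
  obtain ⟨s₁, hs₁, hs₁r⟩ := hrootW r₁ hr₁
  obtain ⟨s₂, hs₂, hs₂r⟩ := hrootW r₂ hr₂Ω
  have hFs : F = (X - C s₁) * (X - C s₂) * q := by
    apply Polynomial.map_injective _ (FaithfulSMul.algebraMap_injective W (AlgebraicClosure K))
    rw [hFq, ← hq, Polynomial.map_mul, Polynomial.map_mul, Polynomial.map_sub, Polynomial.map_sub,
      map_X, map_C, map_C]
    have e1 : algebraMap W (AlgebraicClosure K) s₁ = r₁ := hs₁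
    have e2 : algebraMap W (AlgebraicClosure K) s₂ = r₂ := hs₂
    rw [e1, e2]
  have hs₁a : W.valuation ((s₁ : AlgebraicClosure K) - a) < 1 := by rw [hs₁]; exact hr₁a
  have hs₂a : ¬ W.valuation ((s₂ : AlgebraicClosure K) - a) < 1 := by
    intro h2
    have e1 : F.derivative.eval a = (a - s₂) * q.eval a + (a - s₁) * q.eval a +
        (a - s₁) * (a - s₂) * q.derivative.eval a := by
      rw [hFs]
      simp [derivative_mul]
      ring
    rw [hHa] at hHu
    have h3 : ∀ x y : W, W.valuation (x : AlgebraicClosure K) < 1 →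
        W.valuation ((x * y : W) : AlgebraicClosure K) < 1 := by
      intro x y hx
      rw [MulMemClass.coe_mul, map_mul]
      calc W.valuation (x : AlgebraicClosure K) * W.valuation (y : AlgebraicClosure K) ≤
          W.valuation (x : AlgebraicClosure K) * 1 := by
            gcongr
            exact W.valuation_le_one y
        _ < 1 := by rwa [mul_one]
    have h4 : W.valuation ((a - s₁ : W) : AlgebraicClosure K) < 1 := by
      rw [AddSubgroupClass.coe_sub, Valuation.map_sub_swap]
      exact hs₁a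
    have h5 : W.valuation ((a - s₂ : W) : AlgebraicClosure K) < 1 := by
      rw [AddSubgroupClass.coe_sub, Valuation.map_sub_swap]
      exact h2
    have h6 : W.valuation ((F.derivative.eval a : W) : AlgebraicClosure K) < 1 := by
      rw [e1, AddMemClass.coe_add, AddMemClass.coe_add]
      refine W.valuation.map_add_lt (W.valuation.map_add_lt (h3 _ _ h5) (h3 _ _ h4)) ?_
      rw [mul_assoc]
      exact h3 _ _ h4
    rw [hHu] at h6
    exact lt_irrefl _ h6
  -- the field
  have hfd : FiniteDimensional K K⟮r₁⟯ := adjoin.finiteDimensional hr₁int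
  set α : K⟮r₁⟯ := AdjoinSimple.gen K r₁ with hα
  set y₀ : K⟮r₁⟯ := aeval α (h'.map (algebraMap O K)) *
    algebraMap K K⟮r₁⟯ (((h'.eval a₀ : O) : K)⁻¹) with hy₀
  have hσ : ∀ (σ : K⟮r₁⟯ →ₐ[K] AlgebraicClosure K) (s : W), (s : AlgebraicClosure K) = σ α →
      σ y₀ = ((H.eval s : W) : AlgebraicClosure K) / ((H.eval a : W) : AlgebraicClosure K) := by
    intro σ s hs
    rw [hy₀, map_mul, AlgHom.commutes, ← aeval_algHom_apply, ← hs, map_inv₀, div_eq_mul_inv]
    congr 1
    · rw [aeval_def, ← eval_map, Polynomial.map_map, hH]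
      have : (algebraMap W (AlgebraicClosure K)) ((h'.map i).eval s) =
          ((h'.map i).map (algebraMap W (AlgebraicClosure K))).eval (s : AlgebraicClosure K) := by
        have e3 : (s : AlgebraicClosure K) = algebraMap W (AlgebraicClosure K) s := rfl
        rw [e3, eval_map (algebraMap W (AlgebraicClosure K)), eval₂_hom]
      change _ = (algebraMap W (AlgebraicClosure K)) ((h'.map i).eval s)
      rw [this, Polynomial.map_map]
      rfl
    · congr 1
      rw [hH, ha, eval_map, eval₂_hom, coe_inc]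
  have hσroot : ∀ σ : K⟮r₁⟯ →ₐ[K] AlgebraicClosure K,
      (F.map (algebraMap W (AlgebraicClosure K))).eval (σ α) = 0 := by
    intro σ
    rw [hFK, eval_map, ← aeval_def, aeval_algHom_apply]
    obtain ⟨c, hc⟩ := hdvd
    rw [hc, map_mul]
    have : aeval α (minpoly K r₁) = 0 := by
      have h1 := minpoly.aeval K α
      rwa [hα, IntermediateField.minpoly_gen] at h1
    rw [this, zero_mul, map_zero]
  refine ⟨K⟮r₁⟯, hfd, y₀, K⟮r₁⟯.val, (adjoin.powerBasis hr₁int).lift r₂ ?_, ?_, ?_, ?_⟩
  · rw [adjoin.powerBasis_gen, minpoly_gen, aeval_def, ← eval_map, hg₁, eval_mul, hr₂.eq_zero,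
      mul_zero]
  · intro σ
    obtain ⟨s, hs, hs0⟩ := hrootW _ (hσroot σ)
    rw [hσ σ s hs]
    rcases hroot s hs0 with h1 | h1
    · exact Or.inr h1.2
    · exact Or.inl h1.2
  · rw [hσ _ s₁ (by rw [hs₁]; exact (AdjoinSimple.coe_gen K r₁).symm)]
    rcases hroot s₁ hs₁r with h1 | h1
    · exact h1.2
    · exact absurd hs₁a h1.1
  · rw [hσ _ s₂ (by
      rw [hs₂]
      have := (adjoin.powerBasis hr₁int).lift_gen r₂ (by
        rw [adjoin.powerBasis_gen, minpoly_gen, aeval_def, ← eval_map, hg₁, eval_mul, hr₂.eq_zero,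
          mul_zero])
      exact this.symm)]
    rcases hroot s₂ hs₂r with h1 | h1
    · exact absurd h1.1 hs₂a
    · exact h1.2

end

end Pool.Agent.K4H89.J
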