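import Pool.Agent.K4H89.J.BS

/-!
# Intersections of families of subgroups of bounded index
-/

set_option autoImplicit false

namespace Pool.Agent.K4H89.J

section

variable {X A : Type*} [AddCommGroup A] (J : AddSubgroup A) (H : X → AddSubgroup A)

/-- a finite intersection -/
def NN (S : Finset X) : AddSubgroup A := J ⊓ ⨅ x ∈ S, H x

theorem mem_NN {S : Finset X} {a : A} : a ∈ NN J H S ↔ a ∈ J ∧ ∀ x ∈ S, a ∈ H x := by
  simp [NN, AddSubgroup.mem_inf, AddSubgroup.mem_iInf]

theorem NN_le {S : Finset X} : NN J H S ≤ J := fun _ h => ((mem_NN J H).1 h).1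

theorem NN_insert [DecidableEq X] {S : Finset X} {x : X} :
    NN J H (insert x S) = H x ⊓ NN J H S := by
  ext a
  rw [mem_NN, AddSubgroup.mem_inf, mem_NN, Finset.forall_mem_insert]
  tauto

variable {J H}

theorem NN_bound {S0 : Set X} {M : ℕ} (hM : ∀ x ∈ S0, (H x).relIndex J ≠ 0 ∧ (H x).relIndex J ≤ M)
    (S : Finset X) (hS : (S : Set X) ⊆ S0) :
    (NN J H S).relIndex J ≠ 0 ∧ (NN J H S).relIndex J ≤ M ^ S.card := by
  classical
  induction S using Finset.induction_on with
  | empty =>
    have h1 : NN J H ∅ = J := by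
      ext a
      rw [mem_NN]
      simp
    rw [h1, AddSubgroup.relIndex_self]
    simp
  | insert x S hx ih =>
    rw [Finset.coe_insert, Set.insert_subset_iff] at hS
    have ih' := ih hS.2
    have h1 := hM x hS.1
    rw [NN_insert, Finset.card_insert_of_notMem hx, pow_succ']
    refine ⟨AddSubgroup.relIndex_inf_ne_zero h1.1 ih'.1, ?_⟩
    exact (AddSubgroup.relIndex_inf_le).trans (Nat.mul_le_mul h1.2 ih'.2)

theorem NN_reduce {n : ℕ} (hn : ∀ m, n ≤ m → ∀ x : Fin m → X, ∃ i, ∀ a : A,
    (∀ j, j ≠ i → a ∈ H (x j)) → a ∈ H (x i)) (k : ℕ) (S : Finset X) (hS : S.card ≤ n + k) :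
    ∃ S' ⊆ S, S'.card ≤ n ∧ NN J H S' = NN J H S := by
  classical
  induction k generalizing S with
  | zero => exact ⟨S, subset_rfl, by simpa using hS, rfl⟩
  | succ k ih =>
    by_cases hle : S.card ≤ n
    · exact ⟨S, subset_rfl, hle, rfl⟩
    · push Not at hle
      let e := S.equivFin
      obtain ⟨i, hi⟩ := hn S.card hle.le (fun j => (e.symm j : X))
      obtain ⟨S', h1, h2, h3⟩ := ih (S.erase (e.symm i)) (by
        rw [Finset.card_erase_of_mem (e.symm i).2]
        omega)
      refine ⟨S', h1.trans (Finset.erase_subset _ _), h2, h3.trans ?_⟩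
      ext a
      rw [mem_NN, mem_NN]
      constructor
      · rintro ⟨ha, h4⟩
        refine ⟨ha, fun x hx => ?_⟩
        by_cases hxi : x = e.symm i
        · rw [hxi]
          refine hi a fun j hj => h4 _ (Finset.mem_erase.2 ⟨fun h => hj ?_, (e.symm j).2⟩)
          exact e.symm.injective (Subtype.ext h)
        · exact h4 x (Finset.mem_erase.2 ⟨hxi, hx⟩)
      · rintro ⟨ha, h4⟩
        exact ⟨ha, fun x hx => h4 x (Finset.mem_of_mem_erase hx)⟩

/-- In a family without the independence property of subgroups of bounded index, the intersection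
has finite index. -/
theorem finite_inter (hN : NIPRel fun x a => a ∈ H x) (S0 : Set X) (M : ℕ)
    (hM : ∀ x ∈ S0, (H x).relIndex J ≠ 0 ∧ (H x).relIndex J ≤ M) :
    (J ⊓ ⨅ x ∈ S0, H x).relIndex J ≠ 0 := by
  classical
  obtain ⟨n, hn⟩ := baldwin_saxl H hN
  -- a bound for all finite intersections
  have hb : ∀ S : Finset X, (S : Set X) ⊆ S0 → (NN J H S).relIndex J ≤ (M + 1) ^ n := by
    intro S hS
    obtain ⟨S', h1, h2, h3⟩ := NN_reduce (J := J) hn S.card S (by omega)
    rw [← h3]
    refine (NN_bound hM S' ((Finset.coe_subset.2 h1).trans hS)).2.trans ?_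
    calc M ^ S'.card ≤ (M + 1) ^ S'.card := Nat.pow_le_pow_left (by omega) _
      _ ≤ (M + 1) ^ n := Nat.pow_le_pow_right (by omega) h2
  set T : Set ℕ := {k | ∃ S : Finset X, (S : Set X) ⊆ S0 ∧ (NN J H S).relIndex J = k} with hT
  have hTne : T.Nonempty := ⟨_, ∅, by simp, rfl⟩
  have hTb : BddAbove T := ⟨(M + 1) ^ n, by
    rintro _ ⟨S, hS, rfl⟩
    exact hb S hS⟩
  obtain ⟨S, hS, hSk⟩ := Nat.sSup_mem hTne hTb
  have hmax : ∀ S' : Finset X, (S' : Set X) ⊆ S0 →
      (NN J H S').relIndex J ≤ (NN J H S).relIndex J := by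
    intro S' hS'
    rw [hSk]
    exact le_csSup hTb ⟨S', hS', rfl⟩
  have hle : ∀ x ∈ S0, NN J H S ≤ H x := by
    intro x hx
    have h1 : ((insert x S : Finset X) : Set X) ⊆ S0 := by
      rw [Finset.coe_insert]
      exact Set.insert_subset hx hS
    have h2 : NN J H (insert x S) ≤ NN J H S := by
      rw [NN_insert]
      exact inf_le_right
    have h3 := AddSubgroup.relIndex_mul_relIndex _ _ _ h2 (NN_le J H)
    have h4 := (NN_bound hM (insert x S) h1).1
    have h5 := hmax _ h1
    have h6 : (NN J H (insert x S)).relIndex (NN J H S) = 1 := by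
      have h7 : (NN J H (insert x S)).relIndex (NN J H S) ≠ 0 := by
        intro h0
        rw [h0, zero_mul] at h3
        exact h4 h3.symm
      have h8 : (NN J H S).relIndex J ≠ 0 := (NN_bound hM S hS).1
      by_contra h9
      have h10 : 2 ≤ (NN J H (insert x S)).relIndex (NN J H S) := by omega
      have h11 : 2 * (NN J H S).relIndex J ≤ (NN J H (insert x S)).relIndex J := by
        rw [← h3]
        exact Nat.mul_le_mul_right _ h10
      omega
    rw [AddSubgroup.relIndex_eq_one] at h6
    refine h6.trans ?_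
    rw [NN_insert]
    exact inf_le_left
  have heq : (J ⊓ ⨅ x ∈ S0, H x) = NN J H S := by
    apply le_antisymm
    · intro a ha
      rw [AddSubgroup.mem_inf] at ha
      simp only [AddSubgroup.mem_iInf] at ha
      exact (mem_NN J H).2 ⟨ha.1, fun x hx => ha.2 x (hS hx)⟩
    · intro a ha
      rw [AddSubgroup.mem_inf]
      simp only [AddSubgroup.mem_iInf]
      exact ⟨((mem_NN J H).1 ha).1, fun x hx => hle x hx ha⟩
  rw [heq]
  exact (NN_bound hM S hS).1

end

end Pool.Agent.K4H89.J
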