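import Pool.Agent.K4H89.J.Main
import Pool.Agent.K4H89.NV.Ram

/-!
# Johnson's theorem: definable valuation rings of fields of positive characteristic without the
independence property are henselian
-/

set_option autoImplicit false

namespace Pool.Agent.K4H89.J

open Polynomial
open Pool.Agent.W882.Nip3 (NIPField)

section

variable {K : Type} [Field K] {O : ValuationSubring K}

/-- The trivial valuation ring is henselian. -/
theorem henselian_top : HenselianLocalRing (⊤ : ValuationSubring K) := by
  refine ⟨fun f _ a₀ h1 _ => ⟨a₀, ?_, ?_⟩⟩
  · rw [IsRoot.def]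
    by_contra h0
    refine h1 ?_
    refine ⟨⟨f.eval a₀, ⟨((f.eval a₀ : (⊤ : ValuationSubring K)) : K)⁻¹, trivial⟩, ?_, ?_⟩, rfl⟩
    · apply Subtype.ext
      exact mul_inv_cancel₀ fun h => h0 (Subtype.ext h)
    · apply Subtype.ext
      exact inv_mul_cancel₀ fun h => h0 (Subtype.ext h)
  · rw [sub_self]
    exact Ideal.zero_mem _

theorem infinite_of_ne_top (hO : O ≠ ⊤) : Infinite K := by
  by_contra hcon
  rw [not_infinite_iff_finite] at hcon
  apply hO
  rw [eq_top_iff]
  intro x _
  by_cases hx : x = 0
  · rw [hx]
    exact O.zero_mem
  · rcases O.mem_or_inv_mem x with h | h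
    · exact h
    · have hu : IsOfFinOrder (Units.mk0 x hx) := isOfFinOrder_of_finite _
      obtain ⟨m, hm, hm1⟩ := isOfFinOrder_iff_pow_eq_one.1 hu
      have h1 : x ^ m = 1 := by
        have := congrArg Units.val hm1
        simpa using this
      have h2 : x = x⁻¹ ^ (m - 1) := by
        rw [inv_pow]
        apply eq_inv_of_mul_eq_one_left
        rw [← pow_succ', Nat.sub_add_cancel hm]
        exact h1
      rw [h2]
      exact pow_mem h _

theorem infinite_residue (p : ℕ) [Fact p.Prime]
    (hAS : ∀ w : K, ∃ y, y ^ p - y = w) : Infinite (IsLocalRing.ResidueField O) := by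
  have hp := (Fact.out : p.Prime)
  by_contra hcon
  rw [not_infinite_iff_finite] at hcon
  have hsurj : Function.Surjective (fun x : IsLocalRing.ResidueField O => x ^ p - x) := by
    intro w
    obtain ⟨w, rfl⟩ := IsLocalRing.residue_surjective w
    obtain ⟨y, hy⟩ := hAS w
    have hyO : y ∈ O := by
      rcases O.mem_or_inv_mem y with h | h
      · exact h
      · by_cases hy0 : y = 0
        · rw [hy0]
          exact O.zero_mem
        · have h1 : y = (w : K) * y⁻¹ ^ (p - 1) + y⁻¹ ^ (p - 2) := by
            rw [← hy]
            obtain ⟨q, hq⟩ := Nat.exists_eq_add_of_le hp.two_le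
            have e1 : p - 1 = q + 1 := by omega
            have e2 : p - 2 = q := by omega
            rw [e1, e2, hq, pow_succ y⁻¹ q, inv_pow]
            have h2 : y ^ q ≠ 0 := pow_ne_zero _ hy0
            rw [pow_add]
            field_simp
            ring
          rw [h1]
          exact O.add_mem _ _ (O.mul_mem _ _ w.2 (pow_mem h _)) (pow_mem h _)
    refine ⟨IsLocalRing.residue O ⟨y, hyO⟩, ?_⟩
    simp only
    rw [← map_pow, ← map_sub]
    congr 1
    exact Subtype.ext hy
  have hinj := Finite.injective_iff_surjective.2 hsurj
  have h1 : (0 : IsLocalRing.ResidueField O) = 1 := by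
    apply hinj
    simp [zero_pow hp.ne_zero]
  exact zero_ne_one h1

end

/-- Kaplan, Scanlon and Wagner, for finite extensions of the field. -/
theorem as_closed_finite {K L : Type} [Field K] [FirstOrder.Ring.CompatibleRing K] [Field L]
    [Algebra K L] [FiniteDimensional K L] (hK : NIPField K) [Infinite K] (p : ℕ) [Fact p.Prime]
    [CharP K p] (w : L) : ∃ y : L, y ^ p - y = w := by
  have : CharP L p := charP_of_injective_algebraMap (algebraMap K L).injective p
  have : Infinite L := Infinite.of_injective _ (algebraMap K L).injective
  exact as_closed p (nip_as hK (Module.finBasis K L) p) w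

/-- Johnson: definable valuation rings of NIP fields of positive characteristic are henselian. -/
theorem henselian_of_definable {K : Type} [Field K] [FirstOrder.Ring.CompatibleRing K]
    (hK : NIPField K) (p : ℕ) [Fact p.Prime] [CharP K p] (O : ValuationSubring K)
    (hO : NV.Definable O) : HenselianLocalRing O := by
  by_cases htop : O = ⊤
  · rw [htop]
    exact henselian_top
  have hinf := infinite_of_ne_top htop
  by_contra hcon
  obtain ⟨W, hW⟩ := NV.exists_extension (algebraMap K (AlgebraicClosure K)) O
  obtain ⟨L, hL, y₀, σ₁, σ₂, h1, h2, h3⟩ := exists_split hW hcon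
  have : CharP L p := charP_of_injective_algebraMap (algebraMap K L).injective p
  have : CharP (AlgebraicClosure K) p :=
    charP_of_injective_algebraMap (algebraMap K (AlgebraicClosure K)).injective p
  exact core p W hW (as_closed_finite (L := L) hK p)
    (infinite_residue p (as_closed_finite (L := K) hK p))
    (nip_J hK hO hW (Module.finBasis K L) p) h1 h2 h3

end Pool.Agent.K4H89.J
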