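import Pool.Agent.K4H89.J.Dfb

/-!
# Definable valuation rings of fields of positive characteristic without the independence property
-/

set_option autoImplicit false

namespace Pool.Agent.K4H89.J

open Polynomial
open Pool.Agent.W882.Nip3 (NIPField)

section

variable {Ω : Type} [Field Ω] (W : ValuationSubring Ω)

theorem coeff_lt (s : Multiset Ω) (hs : ∀ r ∈ s, W.valuation r < 1) :
    (∀ i, W.valuation ((s.map (fun r => X - C r)).prod.coeff i) ≤ 1) ∧
    ∀ i, i < Multiset.card s → W.valuation ((s.map (fun r => X - C r)).prod.coeff i) < 1 := by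
  induction s using Multiset.induction_on with
  | empty =>
    refine ⟨fun i => ?_, fun i hi => ?_⟩
    · rw [Multiset.map_zero, Multiset.prod_zero, coeff_one]
      split_ifs <;> simp
    · simp at hi
  | cons r s ih =>
    obtain ⟨ih1, ih2⟩ := ih fun x hx => hs x (Multiset.mem_cons_of_mem hx)
    have hr := hs r (Multiset.mem_cons_self r s)
    rw [Multiset.map_cons, Multiset.prod_cons]
    have hr1 : ∀ x : Ω, W.valuation x ≤ 1 → W.valuation (r * x) < 1 := by
      intro x hx
      rw [map_mul]
      calc W.valuation r * W.valuation x ≤ W.valuation r * 1 := by gcongr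
        _ < 1 := by rwa [mul_one]
    refine ⟨fun i => ?_, fun i hi => ?_⟩
    · rcases i with _ | i
      · rw [mul_coeff_zero, coeff_sub, coeff_X_zero, coeff_C_zero, zero_sub, neg_mul,
          Valuation.map_neg]
        exact (hr1 _ (ih1 0)).le
      · rw [sub_mul, coeff_sub, coeff_X_mul, coeff_C_mul]
        exact W.valuation.map_sub_le (ih1 i) (hr1 _ (ih1 _)).le
    · rw [Multiset.card_cons] at hi
      rcases i with _ | i
      · rw [mul_coeff_zero, coeff_sub, coeff_X_zero, coeff_C_zero, zero_sub, neg_mul,
          Valuation.map_neg]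
        exact hr1 _ (ih1 0)
      · rw [sub_mul, coeff_sub, coeff_X_mul, coeff_C_mul]
        exact W.valuation.map_sub_lt (ih2 i (by omega)) (hr1 _ (ih1 _))

end

section

variable {K L : Type} [Field K] [Field L] [Algebra K L] {O : ValuationSubring K}
  {W : ValuationSubring (AlgebraicClosure K)} {n : ℕ}

theorem mem_J_iff (hW : ∀ x : K, algebraMap K (AlgebraicClosure K) x ∈ W ↔ x ∈ O)
    (b : Module.Basis (Fin n) K L) (z : L) :
    (∀ σ : L →ₐ[K] AlgebraicClosure K, W.valuation (σ z) < 1) ↔
      ∃ c : Fin n → K, (∀ i, O.valuation (c i) < 1) ∧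
        z ^ n + ∑ i, algebraMap K L (c i) * z ^ (i : ℕ) = 0 := by
  classical
  have hfd : FiniteDimensional K L := b.finiteDimensional_of_finite
  have hn : Module.finrank K L = n := by rw [Module.finrank_eq_card_basis b, Fintype.card_fin]
  constructor
  · intro hz
    have hint : IsIntegral K z := Algebra.IsIntegral.isIntegral z
    have hd : (minpoly K z).natDegree ≤ n := hn ▸ minpoly.natDegree_le z
    set G : K[X] := X ^ (n - (minpoly K z).natDegree) * minpoly K z with hG
    have hGm : G.Monic := (monic_X_pow _).mul (minpoly.monic hint)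
    have hGd : G.natDegree = n := by
      rw [hG, (monic_X_pow _).natDegree_mul (minpoly.monic hint), natDegree_X_pow]
      omega
    have hG0 : aeval z G = 0 := by
      rw [hG, map_mul, minpoly.aeval, mul_zero]
    refine ⟨fun i => G.coeff i, fun i => ?_, ?_⟩
    · rw [← lt_one_iff hW, ← coeff_map]
      have hsp : (G.map (algebraMap K (AlgebraicClosure K))).Splits := IsAlgClosed.splits _
      have hGm' := hGm.map (algebraMap K (AlgebraicClosure K))
      have hcard : Multiset.card (G.map (algebraMap K (AlgebraicClosure K))).roots = n := by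
        rw [← hsp.natDegree_eq_card_roots, natDegree_map, hGd]
      rw [hsp.eq_prod_roots_of_monic hGm']
      refine (coeff_lt W _ ?_).2 _ (by rw [hcard]; exact i.2)
      intro r hr
      rw [mem_roots hGm'.ne_zero, IsRoot.def, hG, Polynomial.map_mul, eval_mul, mul_eq_zero] at hr
      rcases hr with hr | hr
      · rw [Polynomial.map_pow, map_X, eval_pow, eval_X] at hr
        rw [eq_zero_of_pow_eq_zero hr, map_zero]
        exact zero_lt_one
      · have h1 : r ∈ (minpoly K z).rootSet (AlgebraicClosure K) := by
          rw [mem_rootSet]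
          refine ⟨minpoly.ne_zero hint, ?_⟩
          rwa [eval_map, ← aeval_def] at hr
        rw [← Algebra.IsAlgebraic.range_eval_eq_rootSet_minpoly] at h1
        obtain ⟨σ, rfl⟩ := h1
        exact hz σ
    · have h1 := congrArg (aeval z) hGm.as_sum
      rw [hG0, hGd] at h1
      simp only [map_add, map_pow, aeval_X, map_sum, map_mul, aeval_C] at h1
      rw [Finset.sum_range] at h1
      exact h1.symm
  · rintro ⟨c, hc, hz⟩ σ
    by_contra hcon
    rw [not_lt] at hcon
    have h1 := congrArg σ hz
    rw [map_add, map_zero, map_sum, map_pow] at h1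
    simp only [map_mul, map_pow, AlgHom.commutes] at h1
    have h2 : (σ z) ^ n = -∑ i : Fin n, algebraMap K (AlgebraicClosure K) (c i) * σ z ^ (i : ℕ) := by
      linear_combination h1
    have hpos : 0 < W.valuation (σ z) ^ n := pow_pos (zero_lt_one.trans_le hcon) _
    have h3 : W.valuation ((σ z) ^ n) < W.valuation (σ z) ^ n := by
      rw [h2, Valuation.map_neg]
      refine Valuation.map_sum_lt _ hpos.ne' fun i _ => ?_
      rw [map_mul, map_pow]
      calc W.valuation (algebraMap K (AlgebraicClosure K) (c i)) * W.valuation (σ z) ^ (i : ℕ) <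
          1 * W.valuation (σ z) ^ (i : ℕ) := by
            refine mul_lt_mul_of_pos_right ((lt_one_iff hW _).2 (hc i)) ?_
            exact pow_pos (zero_lt_one.trans_le hcon) _
        _ = W.valuation (σ z) ^ (i : ℕ) := one_mul _
        _ ≤ W.valuation (σ z) ^ n := pow_le_pow_right₀ hcon i.2.le
    rw [map_pow] at h3
    exact lt_irrefl _ h3

end

section

variable {K L : Type} [Field K] [FirstOrder.Ring.CompatibleRing K] [Field L] [Algebra K L]
  {O : ValuationSubring K} {W : ValuationSubring (AlgebraicClosure K)} {n : ℕ}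

theorem nip_as (hK : NIPField K) (b : Module.Basis (Fin n) K L) (p : ℕ) :
    NIPRel fun a t : L => ∃ x, t = a * (x ^ p - x) := by
  have h1 : DS {w : Fin n ⊕ Fin n → K | ∃ x : L, el b (fun j => w (Sum.inr j)) =
      el b (fun j => w (Sum.inl j)) * (x ^ p - x)} := by
    refine DL.ex b ?_
    refine DL.eq (b := b) ?_ ?_
    · exact DL.el fun i => DF.proj _
    · refine DL.mul (DL.el fun i => DF.proj _) (DL.sub (DL.pow ?_ p) ?_)
      · exact DL.el fun i => DF.proj _
      · exact DL.el fun i => DF.proj _
  have h2 := (nipRel_of_definable hK h1).comap b.equivFun b.equivFun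
  simpa only [Set.mem_ofPred_eq, Sum.elim_inl, Sum.elim_inr, el, LinearEquiv.symm_apply_apply] using! h2

theorem nip_J (hK : NIPField K) (hO : NV.Definable O)
    (hW : ∀ x : K, algebraMap K (AlgebraicClosure K) x ∈ W ↔ x ∈ O)
    (b : Module.Basis (Fin n) K L) (p : ℕ) :
    NIPRel fun (r : K) (x : L) => ∃ z : L,
      (∀ σ : L →ₐ[K] AlgebraicClosure K, W.valuation (σ z) < 1) ∧
      z ^ p - z = algebraMap K L r * x := by
  simp only [mem_J_iff hW b]
  have h1 : DS {w : Fin 1 ⊕ Fin n → K | ∃ z : L, (∃ c : Fin n → K, (∀ i, O.valuation (c i) < 1) ∧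
      z ^ n + ∑ i, algebraMap K L (c i) * z ^ (i : ℕ) = 0) ∧
      z ^ p - z = algebraMap K L (w (Sum.inl 0)) * el b (fun j => w (Sum.inr j))} := by
    refine DL.ex b (DS.and (DS.ex (DS.and (DS.all fun i => ?_) ?_)) ?_)
    · exact DS.mem_max hO (DF.proj _)
    · refine DL.eq (b := b) (DL.add (DL.pow ?_ n) (DL.sum _ fun i _ => DL.mul ?_ (DL.pow ?_ _)))
        (DL.const _)
      · exact DL.el fun i => DF.proj _
      · exact DL.algebraMap (DF.proj _)
      · exact DL.el fun i => DF.proj _
    · refine DL.eq (b := b) (DL.sub (DL.pow ?_ p) ?_) (DL.mul (DL.algebraMap (DF.proj _)) ?_)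
      · exact DL.el fun i => DF.proj _
      · exact DL.el fun i => DF.proj _
      · exact DL.el fun i => DF.proj _
  have h2 := (nipRel_of_definable hK h1).comap (fun (r : K) (_ : Fin 1) => r) b.equivFun
  simpa only [Set.mem_ofPred_eq, Sum.elim_inl, Sum.elim_inr, el, LinearEquiv.symm_apply_apply] using! h2

end

end Pool.Agent.K4H89.J
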